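import Pool.Agent.R677.AZ.Chain

set_option autoImplicit false
set_option linter.unusedSectionVars false
set_option linter.unusedVariables false
set_option linter.style.haveILetI false

open scoped Classical Pointwise commutatorElement
open Pool.Agent.H302R2 Pool.Agent.H302R3 Pool.Agent.H541R3.ART Pool.Agent.W446.AS Pool.Agent.R389

noncomputable section

namespace Pool.Agent.R677.AZ

/-! ### duality for finite commutative groups -/

section dual

variable {H : Type} [Group H] [Finite H]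

@[reducible] def cg (hc : ∀ a b : H, a * b = b * a) : CommGroup H :=
  { (inferInstance : Group H) with mul_comm := hc }

lemma card_dual (hc : ∀ a b : H, a * b = b * a) : Nat.card (H →* ℂˣ) = Nat.card H :=
  @CommGroup.card_monoidHom_of_hasEnoughRootsOfUnity H ℂ (cg hc) _ _ _

lemma card_triv (hc : ∀ a b : H, a * b = b * a) (M : Subgroup H) :
    Nat.card {l : H →* ℂˣ // ∀ m ∈ M, l m = 1} * Nat.card M = Nat.card H := by
  letI : CommGroup H := cg hc
  have h1 := CommGroup.card_domRestrictHom_ker ℂ M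
  have h2 : Nat.card {l : H →* ℂˣ // ∀ m ∈ M, l m = 1} =
      Nat.card (MonoidHom.domRestrictHom M ℂˣ).ker := by
    refine Nat.card_congr (Equiv.subtypeEquivRight fun l => ?_)
    rw [MonoidHom.mem_ker]
    constructor
    · intro h
      ext m
      exact congrArg Units.val (h m m.2)
    · intro h m hm
      exact DFunLike.congr_fun h (⟨m, hm⟩ : M)
  rw [h2, h1]
  exact (Subgroup.card_eq_card_quotient_mul_card_subgroup M).symm

lemma exists_sep (hc : ∀ a b : H, a * b = b * a) (M : Subgroup H) {x : H} (hx : x ∉ M) :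
    ∃ l : H →* ℂˣ, (∀ m ∈ M, l m = 1) ∧ l x ≠ 1 := by
  letI : CommGroup H := cg hc
  by_contra hcon
  push Not at hcon
  exact hx ((CommGroup.forall_monoidHom_apply_eq_one_iff ℂ M x).mp hcon)

lemma sum_dual [Fintype (H →* ℂˣ)] (hc : ∀ a b : H, a * b = b * a) {b : H} (hb : b ≠ 1) :
    ∑ l : H →* ℂˣ, ((l b : ℂˣ) : ℂ) = 0 := by
  obtain ⟨l0, -, h0⟩ := exists_sep hc ⊥ (x := b) (by rwa [Subgroup.mem_bot])
  have h1 : ((l0 b : ℂˣ) : ℂ) * ∑ l : H →* ℂˣ, ((l b : ℂˣ) : ℂ) =
      ∑ l : H →* ℂˣ, ((l b : ℂˣ) : ℂ) := by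
    rw [Finset.mul_sum]
    refine Fintype.sum_equiv (Equiv.mulLeft l0) _ _ fun l => ?_
    simp
  have h2 : ((l0 b : ℂˣ) : ℂ) ≠ 1 := by
    intro h
    exact h0 (Units.ext h)
  have h3 : (((l0 b : ℂˣ) : ℂ) - 1) * ∑ l : H →* ℂˣ, ((l b : ℂˣ) : ℂ) = 0 := by
    rw [sub_mul, h1, one_mul, sub_self]
  rcases mul_eq_zero.mp h3 with h | h
  · exact absurd (sub_eq_zero.mp h) h2
  · exact h

end dual

variable {G : Type} [Group G] [Finite G]

/-! ### characters over a linear character of an abelian normal subgroup -/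

lemma exists_over (B : Subgroup G) (l : B →* ℂˣ) :
    ∃ χ ∈ irrF G, pr (ind B (fun h => ((l h : ℂˣ) : ℂ))) χ ≠ 0 := by
  by_contra hcon
  push Not at hcon
  have h1 := class_expand (ind_class B (fun h => ((l h : ℂˣ) : ℂ))) 1
  rw [Finset.sum_eq_zero (fun χ hχ => by rw [hcon χ hχ, zero_mul]), ind_lin_one] at h1
  exact B.index_ne_zero_of_finite (by exact_mod_cast h1)

lemma deg_le_index (B : Subgroup G) (l : B →* ℂˣ) {χ : G → ℂ} (hχ : χ ∈ Irr G)
    (h : pr (ind B (fun h => ((l h : ℂˣ) : ℂ))) χ ≠ 0) : ∃ d : ℕ, χ 1 = d ∧ d ≤ B.index := by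
  have h1 := class_expand (ind_class B (fun h => ((l h : ℂˣ) : ℂ))) 1
  rw [ind_lin_one] at h1
  have h2 : ∀ ψ ∈ irrF G, ∃ m : ℕ, pr (ind B (fun h => ((l h : ℂˣ) : ℂ))) ψ = m := fun ψ hψ =>
    mono_nat B l (mem_irrF.mp hψ)
  have h3 : ∀ ψ ∈ irrF G, ∃ d : ℕ, ψ 1 = d := fun ψ hψ => by
    obtain ⟨d, -, hd⟩ := irr_deg_pos (mem_irrF.mp hψ)
    exact ⟨d, hd⟩
  choose! m hm using h2
  choose! d hd using h3
  have hχ' := mem_irrF.mpr hχ
  have h4 : B.index = ∑ ψ ∈ irrF G, m ψ * d ψ := by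
    have h5 : (B.index : ℂ) = ((∑ ψ ∈ irrF G, m ψ * d ψ : ℕ) : ℂ) := by
      rw [h1]
      push_cast
      exact Finset.sum_congr rfl fun ψ hψ => by rw [hm ψ hψ, hd ψ hψ]
    exact_mod_cast h5
  refine ⟨d χ, hd χ hχ', ?_⟩
  have h5 : m χ ≠ 0 := by
    intro h0
    apply h
    rw [hm χ hχ', h0, Nat.cast_zero]
  rw [h4]
  refine le_trans ?_ (Finset.single_le_sum (f := fun ψ => m ψ * d ψ) (fun ψ _ => Nat.zero_le _) hχ')
  exact Nat.le_mul_of_pos_left _ (Nat.pos_of_ne_zero h5)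

/-- at most `|G : B|` linear characters of `B` lie under `χ` -/
lemma under_le [Fintype G] (B : Subgroup G) [Fintype (B →* ℂˣ)] (hc : ∀ a b : B, a * b = b * a)
    {χ : G → ℂ} (hχ : χ ∈ Irr G) :
    (Finset.univ.filter (fun l : B →* ℂˣ =>
      pr (ind B (fun h => ((l h : ℂˣ) : ℂ))) χ ≠ 0)).card ≤ B.index := by
  have : Fintype B := Fintype.ofFinite B
  rcases Finset.eq_empty_or_nonempty (Finset.univ.filter (fun l : B →* ℂˣ =>
      pr (ind B (fun h => ((l h : ℂˣ) : ℂ))) χ ≠ 0)) with he | ⟨l0, hl0⟩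
  · rw [he, Finset.card_empty]
    exact Nat.zero_le _
  obtain ⟨d, hd, hdi⟩ := deg_le_index B l0 hχ (Finset.mem_filter.mp hl0).2
  refine le_trans ?_ hdi
  have h2 : ∀ l : B →* ℂˣ, ∃ m : ℕ, pr (ind B (fun h => ((l h : ℂˣ) : ℂ))) χ = m := fun l =>
    mono_nat B l hχ
  choose m hm using h2
  have hsum : ∑ l : B →* ℂˣ, pr (ind B (fun h => ((l h : ℂˣ) : ℂ))) χ = χ 1 := by
    have h3 : ∀ l : B →* ℂˣ, pr (ind B (fun h => ((l h : ℂˣ) : ℂ))) χ =
        (Nat.card B : ℂ)⁻¹ * ∑ b : B, ((l b : ℂˣ) : ℂ) * χ ((b⁻¹ : B) : G) := by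
      intro l
      rw [frob B _ (Irr.conj hχ), pr_eq]
    simp only [h3]
    rw [← Finset.mul_sum, Finset.sum_comm]
    simp only [← Finset.sum_mul]
    rw [Finset.sum_eq_single (1 : B)]
    · simp only [map_one, Units.val_one, Finset.sum_const, Finset.card_univ, nsmul_eq_mul, mul_one,
        inv_one, Subgroup.coe_one]
      rw [← Nat.card_eq_fintype_card, card_dual hc, ← mul_assoc, inv_mul_cancel₀, one_mul]
      exact_mod_cast Nat.card_pos.ne'
    · intro b _ hb
      rw [sum_dual hc hb, zero_mul]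
    · intro h
      exact absurd (Finset.mem_univ _) h
  have hnat : ∑ l : B →* ℂˣ, m l = d := by
    have h3 : ((∑ l : B →* ℂˣ, m l : ℕ) : ℂ) = d := by
      push_cast
      rw [← hd, ← hsum]
      exact Finset.sum_congr rfl fun l _ => (hm l).symm
    exact_mod_cast h3
  rw [← hnat, Finset.card_eq_sum_ones]
  refine (Finset.sum_le_sum (f := fun _ => 1) (g := m) fun l hl => ?_).trans
    (Finset.sum_le_sum_of_subset (Finset.subset_univ _))
  have h3 := (Finset.mem_filter.mp hl).2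
  rw [hm] at h3
  have h4 : m l ≠ 0 := by
    intro h0
    exact h3 (by rw [h0, Nat.cast_zero])
  exact Nat.one_le_iff_ne_zero.mpr h4

/-- the vanishing lemma -/
lemma vanish_over [Fintype G] (B : Subgroup G) (l : B →* ℂˣ) {χ : G → ℂ}
    (hχ : χ ∈ Irr G) (h : pr (ind B (fun h => ((l h : ℂˣ) : ℂ))) χ ≠ 0) (s : G) (u b : B)
    (hu : (u : G) = s * b * s⁻¹ * (b : G)⁻¹)
    (hinv : ∀ (g : G), ∃ v : B, (v : G) = g * u * g⁻¹ ∧ l v = l u) (hlu : l u ≠ 1) :
    χ b = 0 := by
  have : Fintype B := Fintype.ofFinite B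
  obtain ⟨n, ρ, hρ, rfl⟩ := exists_rep hχ
  -- the invariant subspace
  let W : Submodule ℂ (Fin n → ℂ) :=
    { carrier := {v | ∀ g : G, ρ (g * u * g⁻¹) v = ((l u : ℂˣ) : ℂ) • v}
      add_mem' := by
        intro a b ha hb g
        rw [map_add, ha g, hb g, smul_add]
      zero_mem' := by
        intro g
        rw [map_zero, smul_zero]
      smul_mem' := by
        intro c v hv g
        rw [map_smul, hv g, smul_comm] }
  have hW : ∀ g, ∀ v ∈ W, ρ g v ∈ W := by
    intro g v hv g'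
    have h1 : ρ (g' * u * g'⁻¹) (ρ g v) = ρ g (ρ ((g⁻¹ * g') * u * (g⁻¹ * g')⁻¹) v) := by
      rw [← Module.End.mul_apply, ← Module.End.mul_apply, ← map_mul, ← map_mul]
      congr 2
      group
    rw [h1, hv, map_smul]
  let P : (Fin n → ℂ) →ₗ[ℂ] (Fin n → ℂ) := ∑ b : B, ((l b⁻¹ : ℂˣ) : ℂ) • ρ b
  have hPW : ∀ v, P v ∈ W := by
    intro v g
    obtain ⟨c, hc, hlc⟩ := hinv g
    rw [← hc, ← hlc]
    simp only [P, LinearMap.sum_apply, LinearMap.smul_apply, map_sum, map_smul, Finset.smul_sum]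
    refine Fintype.sum_equiv (Equiv.mulLeft c) _ _ fun b => ?_
    simp only [Equiv.coe_mulLeft, Subgroup.coe_mul, map_mul, Module.End.mul_apply, smul_smul,
      mul_inv_rev, map_inv, Units.val_mul]
    congr 1
    rw [mul_comm ((l c : ℂˣ) : ℂ), mul_assoc, ← Units.val_mul (l c)⁻¹, inv_mul_cancel,
      Units.val_one, mul_one]
  have hP0 : P ≠ 0 := by
    intro h0
    apply h
    rw [frob B _ (Irr.conj hχ), pr_comm, pr_eq]
    have h1 : ∑ g : B, ρ.character (g : G) * ((l g⁻¹ : ℂˣ) : ℂ) = LinearMap.trace ℂ _ P := by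
      simp only [P, map_sum, map_smul, smul_eq_mul, Representation.character]
      exact Finset.sum_congr rfl fun b _ => mul_comm _ _
    rw [h1, h0, map_zero, mul_zero]
  have hWt : W = ⊤ := by
    rcases hρ.2 W hW with h1 | h1
    · exfalso
      apply hP0
      refine LinearMap.ext fun v => ?_
      have h2 := hPW v
      rw [h1, Submodule.mem_bot] at h2
      rw [h2, LinearMap.zero_apply]
    · exact h1
  have hρu : ρ u = ((l u : ℂˣ) : ℂ) • (LinearMap.id : (Fin n → ℂ) →ₗ[ℂ] (Fin n → ℂ)) := by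
    refine LinearMap.ext fun v => ?_
    have h1 : v ∈ W := by
      rw [hWt]
      exact Submodule.mem_top
    have h2 := h1 1
    rw [one_mul, inv_one, mul_one] at h2
    rw [h2, LinearMap.smul_apply, LinearMap.id_apply]
  have h1 : ρ.character (s * b * s⁻¹) = ρ.character (b : G) := Irr.conj hχ _ _
  have h2 : s * b * s⁻¹ = u * b := by
    rw [hu]
    group
  have h3 : ρ.character ((u : G) * b) = ((l u : ℂˣ) : ℂ) * ρ.character (b : G) := by
    unfold Representation.character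
    rw [map_mul, hρu, smul_mul_assoc, map_smul, smul_eq_mul]
    rfl
  rw [h2, h3] at h1
  have h4 : (((l u : ℂˣ) : ℂ) - 1) * ρ.character (b : G) = 0 := by
    rw [sub_mul, h1, one_mul, sub_self]
  rcases mul_eq_zero.mp h4 with h5 | h5
  · exact absurd (Units.ext (sub_eq_zero.mp h5)) hlu
  · exact h5

/-- the number of good linear characters -/
lemma good_count (hnil : Group.IsNilpotent G) (B : Subgroup G) (hB : B.Normal)
    (hc : ∀ a b : B, a * b = b * a) (u : B) (hu1 : (u : G) ≠ 1) :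
    Nat.card B ≤ Nat.card {l : B →* ℂˣ // l u ≠ 1 ∧
      ∀ g : G, ∃ v : B, (v : G) = g * u * g⁻¹ ∧ l v = l u} *
        Nat.card (Subgroup.normalClosure ({(u : G)} : Set G)) := by
  set M := Subgroup.normalClosure ({(u : G)} : Set G) with hMdef
  have hMn : M.Normal := Subgroup.normalClosure_normal
  have huM : (u : G) ∈ M := Subgroup.subset_normalClosure rfl
  have hMB : M ≤ B := Subgroup.normalClosure_le_normal (by
    rw [Set.singleton_subset_iff]
    exact u.2)
  have hM' : Nat.card (M.subgroupOf B) = Nat.card M :=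
    Nat.card_congr (Subgroup.subgroupOfEquivOfLe hMB).toEquiv
  have h1 := card_triv hc (M.subgroupOf B)
  rw [hM'] at h1
  rw [← h1]
  refine Nat.mul_le_mul_right _ ?_
  -- a good character
  have huR : (u : G) ∉ ⁅M, (⊤ : Subgroup G)⁆ := by
    intro h
    have h2 : M ≤ ⁅M, (⊤ : Subgroup G)⁆ := Subgroup.normalClosure_le_normal (by
      rw [Set.singleton_subset_iff]
      exact h)
    have h3 := nilp_lemma hnil (D := ⊥) (N := M) inferInstance hMn (by rwa [bot_sup_eq])
    exact hu1 (Subgroup.mem_bot.mp (h3 huM))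
  obtain ⟨l0, h0, h0u⟩ := exists_sep hc ((⁅M, (⊤ : Subgroup G)⁆).subgroupOf B) (x := u) huR
  have hconj : ∀ g : G, ∃ v : B, (v : G) = g * u * g⁻¹ := fun g => ⟨⟨g * u * g⁻¹,
    hB.conj_mem _ u.2 g⟩, rfl⟩
  have hl0 : ∀ g : G, ∀ v : B, (v : G) = g * u * g⁻¹ → l0 v = l0 u := by
    intro g v hv
    have h2 : v * u⁻¹ ∈ (⁅M, (⊤ : Subgroup G)⁆).subgroupOf B := by
      rw [Subgroup.mem_subgroupOf, Subgroup.coe_mul, Subgroup.coe_inv, hv,
        Subgroup.commutator_comm]
      exact Subgroup.commutator_mem_commutator (Subgroup.mem_top g) huM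
    have h3 := h0 _ h2
    rw [map_mul, map_inv, mul_inv_eq_one] at h3
    exact h3
  have hfin : Finite {l : B →* ℂˣ // l u ≠ 1 ∧
      ∀ g : G, ∃ v : B, (v : G) = g * u * g⁻¹ ∧ l v = l u} := Subtype.finite
  refine Nat.card_le_card_of_injective (fun l : {l : B →* ℂˣ // ∀ m ∈ M.subgroupOf B, l m = 1} =>
    (⟨l0 * l.1, ?_, ?_⟩ : {l : B →* ℂˣ // l u ≠ 1 ∧
      ∀ g : G, ∃ v : B, (v : G) = g * u * g⁻¹ ∧ l v = l u})) ?_
  · rw [MonoidHom.mul_apply, l.2 u huM, mul_one]
    exact h0u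
  · intro g
    obtain ⟨v, hv⟩ := hconj g
    refine ⟨v, hv, ?_⟩
    have hvM : v ∈ M.subgroupOf B := by
      rw [Subgroup.mem_subgroupOf, hv]
      exact hMn.conj_mem _ huM g
    rw [MonoidHom.mul_apply, MonoidHom.mul_apply, l.2 v hvM, l.2 u huM, hl0 g v hv]
  · intro a b hab
    have h2 := congrArg Subtype.val hab
    simp only at h2
    exact Subtype.ext (mul_left_cancel h2)

end Pool.Agent.R677.AZ
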