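import Pool.Agent.R389.Mono
import Pool.Agent.R389.Good

set_option autoImplicit false
set_option linter.unusedSectionVars false
set_option linter.unusedVariables false

open scoped Classical
open Pool.Agent.H302R2 Pool.Agent.H302R3 Pool.Agent.H541R3.ART Pool.Agent.W446.AS Pool.Agent.R389

noncomputable section

namespace Pool.Agent.R677.AZ

variable {G : Type} [Group G] [Finite G]

/-- the number of zero entries of the character table of `G` -/
def zeros (G : Type) [Group G] : ℕ :=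
  Set.ncard {e : (G → ℂ) × ConjClasses G |
    e.1 ∈ Irr G ∧ ∀ g : G, ConjClasses.mk g = e.2 → e.1 g = 0}

/-- the average number of zeros -/
def anz (G : Type) [Group G] : ℝ := (zeros G : ℝ) / (Nat.card (ConjClasses G) : ℝ)

/-- the classes on which `χ` vanishes -/
def zset (χ : G → ℂ) : Set (ConjClasses G) := {K | ∀ g, ConjClasses.mk g = K → χ g = 0}

def zc (χ : G → ℂ) : ℕ := (zset χ).ncard

instance : Finite (ConjClasses G) := Quotient.finite _

lemma zeros_eq : zeros G = ∑ χ ∈ irrF G, zc χ := by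
  have : Fintype (ConjClasses G) := Fintype.ofFinite _
  have h1 : {e : (G → ℂ) × ConjClasses G |
      e.1 ∈ Irr G ∧ ∀ g : G, ConjClasses.mk g = e.2 → e.1 g = 0} =
      (((irrF G) ×ˢ (Finset.univ : Finset (ConjClasses G))).filter
        (fun e => ∀ g : G, ConjClasses.mk g = e.2 → e.1 g = 0) : Finset _) := by
    ext e
    simp [mem_irrF]
  rw [zeros, h1, Set.ncard_coe_finset, Finset.card_filter, Finset.sum_product]
  refine Finset.sum_congr rfl fun χ _ => ?_
  rw [zc, zset, ← Finset.card_filter, ← Set.ncard_coe_finset]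
  congr 1
  ext K
  simp

lemma cls_out {χ : G → ℂ} (hχ : ∀ g x : G, χ (x * g * x⁻¹) = χ g) (g : G) :
    χ (Quotient.out (ConjClasses.mk g)) = χ g := by
  have h : ConjClasses.mk (Quotient.out (ConjClasses.mk g)) = ConjClasses.mk g :=
    Quotient.out_eq (ConjClasses.mk g)
  rw [ConjClasses.mk_eq_mk_iff_isConj, isConj_iff] at h
  obtain ⟨c, hc⟩ := h
  rw [← hχ _ c, hc]

/-- the number of irreducible characters is the number of classes -/
theorem card_irrF : (irrF G).card = Nat.card (ConjClasses G) := by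
  have : Fintype (ConjClasses G) := Fintype.ofFinite _
  let Φ : ((irrF G) → ℂ) →ₗ[ℂ] (ConjClasses G → ℂ) :=
    { toFun := fun a K => ∑ χ : irrF G, a χ * (χ : G → ℂ) (Quotient.out K)
      map_add' := by
        intro a b
        funext K
        simp only [Pi.add_apply, add_mul, Finset.sum_add_distrib]
      map_smul' := by
        intro c a
        funext K
        simp only [Pi.smul_apply, smul_eq_mul, RingHom.id_apply, Finset.mul_sum, mul_assoc] }
  have hΦ : ∀ a K, Φ a K = ∑ χ : irrF G, a χ * (χ : G → ℂ) (Quotient.out K) := fun _ _ => rfl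
  have hinj : Function.Injective Φ := by
    rw [← LinearMap.ker_eq_bot, LinearMap.ker_eq_bot']
    intro a ha
    funext ψ
    let n : (G → ℂ) → ℂ := fun χ => if h : χ ∈ irrF G then a ⟨χ, h⟩ else 0
    have h1 : (fun g => ∑ χ ∈ irrF G, n χ * χ g) = (0 : G → ℂ) := by
      funext g
      have h2 := congrFun ha (ConjClasses.mk g)
      rw [hΦ] at h2
      rw [← Finset.sum_coe_sort]
      rw [Pi.zero_apply] at h2
      rw [Pi.zero_apply, ← h2]
      refine Finset.sum_congr rfl fun χ _ => ?_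
      rw [cls_out (Irr.conj (mem_irrF.mp χ.2))]
      simp only [n, dif_pos χ.2]
    have h3 := pr_sum_irr n (mem_irrF.mp ψ.2)
    rw [h1, pr_zero_left] at h3
    simp only [n, dif_pos ψ.2] at h3
    exact h3.symm
  have hsurj : Function.Surjective Φ := by
    intro f
    have hc : ∀ g x : G, (fun g => f (ConjClasses.mk g)) (x * g * x⁻¹) =
        (fun g => f (ConjClasses.mk g)) g := by
      intro g x
      show f _ = f _
      congr 1
      rw [ConjClasses.mk_eq_mk_iff_isConj, isConj_comm, isConj_iff]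
      exact ⟨x, rfl⟩
    refine ⟨fun χ => pr (fun g => f (ConjClasses.mk g)) χ, ?_⟩
    funext K
    rw [hΦ, Finset.sum_coe_sort (irrF G) (fun χ => pr (fun g => f (ConjClasses.mk g)) χ *
      χ (Quotient.out K)), ← class_expand hc]
    show f _ = f K
    congr 1
    exact Quotient.out_eq K
  have h := (LinearEquiv.ofBijective Φ ⟨hinj, hsurj⟩).finrank_eq
  rw [Module.finrank_fintype_fun_eq_card, Module.finrank_fintype_fun_eq_card,
    Fintype.card_coe] at h
  rw [h, Nat.card_eq_fintype_card]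

lemma zset_eq {χ : G → ℂ} (hχ : χ ∈ Irr G) {g : G} : ConjClasses.mk g ∈ zset χ ↔ χ g = 0 := by
  constructor
  · intro h
    exact h g rfl
  · intro h g' hg'
    rw [ConjClasses.mk_eq_mk_iff_isConj, isConj_comm, isConj_iff] at hg'
    obtain ⟨c, rfl⟩ := hg'
    rw [Irr.conj hχ, h]

lemma zc_lt {χ : G → ℂ} (hχ : χ ∈ Irr G) : zc χ + 1 ≤ Nat.card (ConjClasses G) := by
  have h1 : ConjClasses.mk (1 : G) ∉ zset χ := by
    rw [zset_eq hχ]
    obtain ⟨d, hd, h⟩ := irr_deg_pos hχ
    rw [h]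
    exact_mod_cast hd.ne'
  have h2 : (zset χ) ⊂ Set.univ := by
    rw [Set.ssubset_univ_iff]
    intro h
    rw [h] at h1
    exact h1 (Set.mem_univ _)
  have h3 := Set.ncard_lt_ncard h2 (Set.toFinite _)
  rw [Set.ncard_univ] at h3
  exact h3

/-! ### induced characters -/

lemma ind_lin_zero (H : Subgroup G) (f : H → ℂ) {g : G} (h : ∀ x : G, x⁻¹ * g * x ∉ H) :
    ind H f g = 0 := by
  have : Fintype G := Fintype.ofFinite G
  rw [ind_eq, Finset.sum_eq_zero, mul_zero]
  intro x _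
  exact ext_not H f (h x)

lemma ind_lin_one (H : Subgroup G) (ψ : H →* ℂˣ) :
    ind H (fun h => ((ψ h : ℂˣ) : ℂ)) 1 = H.index := by
  have : Fintype G := Fintype.ofFinite G
  have h1 : ∀ x : G, ext H (fun h => ((ψ h : ℂˣ) : ℂ)) (x⁻¹ * 1 * x) = 1 := by
    intro x
    have h2 : x⁻¹ * 1 * x = 1 := by group
    rw [h2, ext_mem H _ (one_mem H)]
    have h3 : (⟨1, one_mem H⟩ : H) = 1 := rfl
    rw [h3, map_one, Units.val_one]
  rw [ind_eq, Finset.sum_congr rfl (fun x _ => h1 x), Finset.sum_const, Finset.card_univ,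
    nsmul_eq_mul, mul_one, ← Nat.card_eq_fintype_card, ← H.card_mul_index]
  have h4 : (Nat.card H : ℂ) ≠ 0 := by exact_mod_cast Nat.card_pos.ne'
  push_cast
  field_simp

lemma hypP_of_pgroup {p : ℕ} (hG : IsPGroup p G) : HypP p G := by
  refine ⟨1, by simp, fun u => by simp, fun u => ?_⟩
  obtain ⟨k, hk⟩ := hG u
  exact ⟨k, by rw [hk]; exact one_mem _⟩

lemma pgroup_mono {p : ℕ} (hp : p.Prime) (hG : IsPGroup p G) {χ : G → ℂ} (hχ : χ ∈ Irr G) :
    Mono χ := hyp_mono hp _ G rfl (hypP_of_pgroup hG) χ hχ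

/-- linear characters as a set of functions -/
def lin (μ : G →* ℂˣ) : G → ℂ := fun g => ((μ g : ℂˣ) : ℂ)

lemma lin_inj : Function.Injective (lin (G := G)) := by
  intro a b h
  ext g
  exact congrFun h g

lemma lin_mem (μ : G →* ℂˣ) : lin μ ∈ irrF G := mem_irrF.mpr (lin_irr μ)

lemma lin_one (μ : G →* ℂˣ) : lin μ 1 = 1 := by simp [lin]

lemma exists_lin {p : ℕ} (hp : p.Prime) (hG : IsPGroup p G) {χ : G → ℂ} (hχ : χ ∈ Irr G)
    (h1 : χ 1 = 1) : ∃ μ, χ = lin μ := by
  have : Fintype G := Fintype.ofFinite G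
  obtain ⟨K, ψ, h⟩ := pgroup_mono hp hG hχ
  have h2 := ind_lin_one K ψ
  rw [← h, h1] at h2
  have h3 : K.index = 1 := by exact_mod_cast h2.symm
  rw [Subgroup.index_eq_one] at h3
  subst h3
  refine ⟨ψ.comp (Subgroup.topEquiv (G := G)).symm.toMonoidHom, ?_⟩
  funext g
  rw [h, ind_eq]
  have h4 : ∀ x : G, ext (⊤ : Subgroup G) (fun h => ((ψ h : ℂˣ) : ℂ)) (x⁻¹ * g * x) =
      ((ψ ⟨g, Subgroup.mem_top g⟩ : ℂˣ) : ℂ) := by
    intro x
    rw [ext_mem _ _ (Subgroup.mem_top _)]
    have h5 : (⟨x⁻¹ * g * x, Subgroup.mem_top _⟩ : (⊤ : Subgroup G)) =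
        ⟨x, Subgroup.mem_top _⟩⁻¹ * ⟨g, Subgroup.mem_top _⟩ * ⟨x, Subgroup.mem_top _⟩ := rfl
    rw [h5, map_mul, map_mul, map_inv]
    congr 1
    rw [mul_comm, mul_inv_cancel_left]
  rw [Finset.sum_congr rfl (fun x _ => h4 x), Finset.sum_const, Finset.card_univ, nsmul_eq_mul,
    Subgroup.card_top, Nat.card_eq_fintype_card, ← mul_assoc, inv_mul_cancel₀, one_mul]
  · rfl
  · exact_mod_cast Fintype.card_pos.ne'

/-- number of linear characters -/
def nq (G : Type) [Group G] : ℕ := Nat.card (Abelianization G)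

instance : Finite (G →* ℂˣ) := by
  have h : Nat.card (Abelianization G →* ℂˣ) = Nat.card (Abelianization G) :=
    CommGroup.card_monoidHom_of_hasEnoughRootsOfUnity (Abelianization G) ℂ
  have h2 : Finite (Abelianization G →* ℂˣ) := Nat.finite_of_card_ne_zero (by
    rw [h]; exact Nat.card_pos.ne')
  exact Finite.of_equiv _ (Abelianization.lift (G := G) (A := ℂˣ)).symm

lemma card_lin : Nat.card (G →* ℂˣ) = nq G := by
  rw [Nat.card_congr (Abelianization.lift (G := G) (A := ℂˣ)),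
    CommGroup.card_monoidHom_of_hasEnoughRootsOfUnity]
  rfl

/-- nonlinear irreducible characters -/
def nl (G : Type) [Group G] [Finite G] : Finset (G → ℂ) := (irrF G).filter (fun χ => χ 1 ≠ 1)

lemma mem_nl {χ : G → ℂ} : χ ∈ nl G ↔ χ ∈ Irr G ∧ χ 1 ≠ 1 := by
  rw [nl, Finset.mem_filter, mem_irrF]

lemma card_split {p : ℕ} (hp : p.Prime) (hG : IsPGroup p G) :
    (irrF G).card = nq G + (nl G).card := by
  have : Fintype (G →* ℂˣ) := Fintype.ofFinite _
  rw [← Finset.card_filter_add_card_filter_not (s := irrF G) (fun χ => χ 1 = 1)]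
  congr 1
  rw [← card_lin, Nat.card_eq_fintype_card, ← Finset.card_univ,
    ← Finset.card_image_of_injective _ (lin_inj (G := G))]
  congr 1
  ext χ
  rw [Finset.mem_filter, mem_irrF, Finset.mem_image]
  constructor
  · rintro ⟨h1, h2⟩
    obtain ⟨μ, h⟩ := exists_lin hp hG h1 h2
    exact ⟨μ, Finset.mem_univ _, h.symm⟩
  · rintro ⟨μ, -, rfl⟩
    exact ⟨mem_irrF.mp (lin_mem μ), lin_one μ⟩

lemma zc_lin (μ : G →* ℂˣ) : zc (lin μ) = 0 := by
  rw [zc, Set.ncard_eq_zero, Set.eq_empty_iff_forall_notMem]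
  intro K hK
  obtain ⟨g, rfl⟩ := ConjClasses.exists_rep K
  exact (μ g).ne_zero (hK g rfl)

lemma zeros_nl {p : ℕ} (hp : p.Prime) (hG : IsPGroup p G) : zeros G = ∑ χ ∈ nl G, zc χ := by
  rw [zeros_eq, nl, Finset.sum_filter]
  refine Finset.sum_congr rfl fun χ hχ => ?_
  split_ifs with h
  · rfl
  · push Not at h
    obtain ⟨μ, rfl⟩ := exists_lin hp hG (mem_irrF.mp hχ) h
    exact zc_lin μ

end Pool.Agent.R677.AZ
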