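import Pool.Agent.R677.AZ.Abel

set_option autoImplicit false
set_option linter.unusedSectionVars false
set_option linter.unusedVariables false
set_option linter.style.haveILetI false

open scoped Classical Pointwise commutatorElement
open Pool.Agent.H302R2 Pool.Agent.H302R3 Pool.Agent.H541R3.ART Pool.Agent.W446.AS Pool.Agent.R389

noncomputable section

namespace Pool.Agent.R677.AZ

variable {G : Type} [Group G] [Finite G]

/-- a class meets an abelian subgroup of index `J` in at most `J` elements -/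
lemma cls_inter [Fintype G] (B : Subgroup G) [Fintype B] (hc : ∀ a b : B, a * b = b * a)
    (K : ConjClasses G) :
    (Finset.univ.filter (fun b : B => ConjClasses.mk (b : G) = K)).card ≤ B.index := by
  have : Fintype (G ⧸ B) := Fintype.ofFinite _
  rcases Finset.eq_empty_or_nonempty
    (Finset.univ.filter (fun b : B => ConjClasses.mk (b : G) = K)) with he | ⟨b0, hb0⟩
  · rw [he, Finset.card_empty]
    exact Nat.zero_le _
  rw [Finset.mem_filter] at hb0
  have h1 : ((Finset.univ.filter (fun b : B => ConjClasses.mk (b : G) = K)).map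
      ⟨fun b : B => (b : G), Subtype.coe_injective⟩) ⊆
      (Finset.univ : Finset (G ⧸ B)).image (fun q => (Quotient.out q : G) * b0 *
        (Quotient.out q : G)⁻¹) := by
    intro y hy
    rw [Finset.mem_map] at hy
    obtain ⟨b, hb, rfl⟩ := hy
    rw [Finset.mem_filter] at hb
    have h2 : ConjClasses.mk (b0 : G) = ConjClasses.mk (b : G) := hb0.2.trans hb.2.symm
    rw [ConjClasses.mk_eq_mk_iff_isConj, isConj_iff] at h2
    obtain ⟨c, hcc⟩ := h2
    rw [Finset.mem_image]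
    refine ⟨QuotientGroup.mk c, Finset.mem_univ _, ?_⟩
    show _ = (b : G)
    rw [← hcc]
    have h3 : (QuotientGroup.mk (Quotient.out (QuotientGroup.mk c : G ⧸ B) : G) : G ⧸ B) =
        QuotientGroup.mk c := Quotient.out_eq _
    rw [QuotientGroup.eq] at h3
    set t : G := (Quotient.out (QuotientGroup.mk c : G ⧸ B) : G) with ht
    obtain ⟨e, he⟩ : ∃ e : B, (e : G) = t⁻¹ * c := ⟨⟨_, h3⟩, rfl⟩
    have h4 : c = t * e := by rw [he, mul_inv_cancel_left]
    have h5 : (e : G) * b0 * (e : G)⁻¹ = b0 := by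
      have := congrArg (fun z : B => (z : G)) (hc e b0)
      simp only [Subgroup.coe_mul] at this
      rw [this, mul_inv_cancel_right]
    rw [h4, mul_inv_rev]
    calc t * (b0 : G) * t⁻¹ = t * ((e : G) * b0 * (e : G)⁻¹) * t⁻¹ := by rw [h5]
      _ = t * (e : G) * b0 * ((e : G)⁻¹ * t⁻¹) := by group
  have h2 := Finset.card_le_card h1
  rw [Finset.card_map] at h2
  refine h2.trans (Finset.card_image_le.trans ?_)
  rw [Finset.card_univ, ← Nat.card_eq_fintype_card]
  exact le_rfl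

/-- choice of the abelian normal subgroup -/
lemma exists_max_abelian {p : ℕ} (hp : p.Prime) (hG : IsPGroup p G)
    (hna : ¬ ∀ a b : G, a * b = b * a) {A : Subgroup G} (hA : A.Normal)
    (hAc : ∀ a ∈ A, ∀ b ∈ A, a * b = b * a) :
    ∃ (B : Subgroup G) (s : G), B.Normal ∧ (∀ a ∈ B, ∀ b ∈ B, a * b = b * a) ∧
      B.index ≤ A.index ∧ p ≤ B.index ∧ (∀ g : G, g * s * g⁻¹ * s⁻¹ ∈ B) ∧
      ∃ b ∈ B, s * b * s⁻¹ * b⁻¹ ≠ 1 := by
  haveI : Fact p.Prime := ⟨hp⟩
  have hnil : Group.IsNilpotent G := hG.isNilpotent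
  obtain ⟨B, ⟨hB, hBc, hAB⟩, hmax⟩ := Set.exists_max_image
    {B : Subgroup G | B.Normal ∧ (∀ a ∈ B, ∀ b ∈ B, a * b = b * a) ∧ A ≤ B}
    (fun B => Nat.card B) (Set.toFinite _) ⟨A, hA, hAc, le_rfl⟩
  haveI := hB
  have hBt : B ≠ ⊤ := by
    rintro rfl
    exact hna fun a b => hBc a (Subgroup.mem_top a) b (Subgroup.mem_top b)
  -- a central element of the quotient
  obtain ⟨s, hs, hsc⟩ : ∃ s : G, s ∉ B ∧ ∀ g : G, g * s * g⁻¹ * s⁻¹ ∈ B := by
    have hnt : Nontrivial (G ⧸ B) := by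
      rw [QuotientGroup.nontrivial_iff]
      exact hBt
    haveI := (hG.of_surjective (QuotientGroup.mk' B) (QuotientGroup.mk'_surjective B)).center_nontrivial
    obtain ⟨z, hz⟩ := exists_ne (1 : Subgroup.center (G ⧸ B))
    obtain ⟨s, hs⟩ := QuotientGroup.mk'_surjective B (z : G ⧸ B)
    refine ⟨s, ?_, ?_⟩
    · intro h
      apply hz
      apply Subtype.ext
      rw [← hs]
      exact (QuotientGroup.eq_one_iff s).mpr h
    · intro g
      rw [← QuotientGroup.eq_one_iff]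
      show (QuotientGroup.mk' B) (g * s * g⁻¹ * s⁻¹) = 1
      rw [map_mul, map_mul, map_mul, map_inv, map_inv, hs]
      have h1 := Subgroup.mem_center_iff.mp z.2 (QuotientGroup.mk' B g)
      rw [h1, mul_inv_cancel_right, mul_inv_cancel]
  have hidx : B.index ≤ A.index := Nat.le_of_dvd
    (Nat.pos_of_ne_zero A.index_ne_zero_of_finite) (Subgroup.index_dvd_of_le hAB)
  have hpidx : p ≤ B.index := by
    obtain ⟨k, hk⟩ := hG.index B
    rcases Nat.eq_zero_or_pos k with h | h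
    · rw [h, pow_zero, Subgroup.index_eq_one] at hk
      exact absurd hk hBt
    · rw [hk]
      exact Nat.le_self_pow h.ne' p
  refine ⟨B, s, hB, hBc, hidx, hpidx, hsc, ?_⟩
  by_contra hcon
  push Not at hcon
  have hsB : ∀ b ∈ B, s * b = b * s := by
    intro b hb
    have h1 := hcon b hb
    rw [mul_inv_eq_one, mul_inv_eq_iff_eq_mul] at h1
    exact h1
  -- enlarge
  let B' : Subgroup G := B ⊔ Subgroup.zpowers s
  have hmem : ∀ x ∈ B', ∃ b ∈ B, ∃ k : ℤ, x = b * s ^ k := by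
    intro x hx
    have h1 : x ∈ (B : Set G) * (Subgroup.zpowers s : Set G) := by
      rw [← Subgroup.normal_mul]
      exact hx
    obtain ⟨b, hb, y, hy, rfl⟩ := h1
    obtain ⟨k, rfl⟩ := Subgroup.mem_zpowers_iff.mp hy
    exact ⟨b, hb, k, rfl⟩
  have hcs : ∀ b ∈ B, ∀ k : ℤ, Commute b (s ^ k) := fun b hb k =>
    (show Commute b s from (hsB b hb).symm).zpow_right k
  have hB'c : ∀ a ∈ B', ∀ b ∈ B', a * b = b * a := by
    intro a ha b hb
    obtain ⟨x, hx, k, rfl⟩ := hmem a ha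
    obtain ⟨y, hy, l, rfl⟩ := hmem b hb
    have h1 : Commute x y := hBc x hx y hy
    have h2 : Commute (s ^ k) (s ^ l) := (Commute.refl s).zpow_zpow k l
    exact ((h1.mul_right (hcs x hx l)).mul_left (((hcs y hy k).symm).mul_right h2)).eq
  have hB'n : B'.Normal := by
    refine ⟨fun x hx g => ?_⟩
    obtain ⟨b, hb, k, rfl⟩ := hmem x hx
    have h1 : g * (b * s ^ k) * g⁻¹ = (g * b * g⁻¹) * (g * s * g⁻¹) ^ k := by
      rw [conj_zpow]
      group
    rw [h1]
    refine mul_mem (Subgroup.mem_sup_left (hB.conj_mem b hb g)) (zpow_mem ?_ k)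
    have h2 : g * s * g⁻¹ = (g * s * g⁻¹ * s⁻¹) * s := by group
    rw [h2]
    exact mul_mem (Subgroup.mem_sup_left (hsc g))
      (Subgroup.mem_sup_right (Subgroup.mem_zpowers s))
  have h3 := hmax B' ⟨hB'n, hB'c, hAB.trans le_sup_left⟩
  have h4 : B = B' := by
    refine SetLike.coe_injective (Set.eq_of_subset_of_ncard_le ?_ ?_ (Set.toFinite _))
    · exact le_sup_left (a := B)
    · exact h3
  apply hs
  rw [h4]
  exact Subgroup.mem_sup_right (Subgroup.mem_zpowers s)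

/-- the main counting -/
theorem abelian_count {p : ℕ} (hp : p.Prime) (hG : IsPGroup p G) (B : Subgroup G) (s : G)
    (hB : B.Normal) (hBc : ∀ a ∈ B, ∀ b ∈ B, a * b = b * a)
    (hs : ∀ g : G, g * s * g⁻¹ * s⁻¹ ∈ B) (hsb : ∃ b ∈ B, s * b * s⁻¹ * b⁻¹ ≠ 1) :
    ∃ (r k : ℕ), 1 ≤ r ∧ 1 ≤ k ∧ Nat.card B = k * p ^ r ∧
      Nat.card B * k * r ≤ 2 * B.index ^ 2 * zeros G := by
  haveI : Fact p.Prime := ⟨hp⟩
  haveI := hB
  have hnil : Group.IsNilpotent G := hG.isNilpotent
  have : Fintype G := Fintype.ofFinite G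
  have : Fintype B := Fintype.ofFinite B
  have : Fintype (B →* ℂˣ) := Fintype.ofFinite _
  have : Fintype (ConjClasses G) := Fintype.ofFinite _
  have hc : ∀ a b : B, a * b = b * a := fun a b => Subtype.ext (hBc a a.2 b b.2)
  have hcomm : ∀ a b : B, (a : G) * b = b * a := fun a b => hBc a a.2 b b.2
  have hφm : ∀ b : B, s * b * s⁻¹ * (b : G)⁻¹ ∈ B := fun b =>
    mul_mem (hB.conj_mem _ b.2 s) (inv_mem b.2)
  let φ : B →* B :=
    { toFun := fun b => ⟨s * b * s⁻¹ * (b : G)⁻¹, hφm b⟩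
      map_one' := by
        apply Subtype.ext
        simp
      map_mul' := by
        intro a b
        apply Subtype.ext
        simp only [Subgroup.coe_mul]
        have h1 := hBc _ (inv_mem a.2) _ (hφm b)
        have h2 := hBc _ (inv_mem a.2) _ (inv_mem b.2)
        calc s * ((a : G) * b) * s⁻¹ * ((a : G) * b)⁻¹
            = s * a * s⁻¹ * ((s * b * s⁻¹ * (b : G)⁻¹) * (a : G)⁻¹) := by group
          _ = s * a * s⁻¹ * ((a : G)⁻¹ * (s * b * s⁻¹ * (b : G)⁻¹)) := by rw [h1]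
          _ = s * a * s⁻¹ * (a : G)⁻¹ * (s * b * s⁻¹ * (b : G)⁻¹) := by group }
  have hφ : ∀ b : B, ((φ b : B) : G) = s * b * s⁻¹ * (b : G)⁻¹ := fun _ => rfl
  let C : Subgroup G := φ.range.map B.subtype
  have hCn : C.Normal := by
    refine ⟨?_⟩
    rintro _ ⟨_, ⟨b, rfl⟩, rfl⟩ g
    refine ⟨φ ⟨g * b * g⁻¹, hB.conj_mem _ b.2 g⟩, ⟨_, rfl⟩, ?_⟩
    rw [Subgroup.coe_subtype, hφ, hφ]
    -- g s g⁻¹ = t s with t ∈ B
    have ht := hs g
    have htn : s⁻¹ * (g * s * g⁻¹ * s⁻¹) * s ∈ B := by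
      have := hB.conj_mem _ ht s⁻¹
      rwa [inv_inv] at this
    have hbn : g * b * g⁻¹ ∈ B := hB.conj_mem _ b.2 g
    have h1 := hBc _ htn _ hbn
    have h2 : g * (s * b * s⁻¹ * (b : G)⁻¹) * g⁻¹ =
        s * ((s⁻¹ * (g * s * g⁻¹ * s⁻¹) * s) * (g * b * g⁻¹)) *
          (s⁻¹ * (g * s * g⁻¹ * s⁻¹) * s)⁻¹ * s⁻¹ * (g * b * g⁻¹)⁻¹ := by
      group
    show s * (g * b * g⁻¹) * s⁻¹ * (g * b * g⁻¹)⁻¹ = g * (s * b * s⁻¹ * (b : G)⁻¹) * g⁻¹
    rw [h2, h1]
    group
  obtain ⟨r, hr⟩ := (hG.to_subgroup C).exists_card_eq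
  have hCr : Nat.card φ.range = p ^ r := by
    rw [← hr]
    exact Nat.card_congr (φ.range.equivMapOfInjective B.subtype B.subtype_injective).toEquiv
  have hker : Nat.card φ.ker * p ^ r = Nat.card B := by
    rw [← hCr, ← Subgroup.index_ker]
    exact φ.ker.card_mul_index
  have hr1 : 1 ≤ r := by
    rcases Nat.eq_zero_or_pos r with h | h
    · exfalso
      rw [h, pow_zero, Subgroup.card_eq_one] at hr
      obtain ⟨b, hb, hne⟩ := hsb
      apply hne
      have h1 : ((φ ⟨b, hb⟩ : B) : G) ∈ C := ⟨φ ⟨b, hb⟩, ⟨_, rfl⟩, rfl⟩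
      rw [hr, Subgroup.mem_bot] at h1
      exact h1
    · exact h
  refine ⟨r, Nat.card φ.ker, hr1, Nat.card_pos, hker.symm, ?_⟩
  -- pairs
  let Lb : B → Finset (B →* ℂˣ) := fun b => Finset.univ.filter (fun l => l (φ b) ≠ 1 ∧
      ∀ g : G, ∃ v : B, (v : G) = g * (φ b) * g⁻¹ ∧ l v = l (φ b))
  have hLb : ∀ b : B, (Nat.card B : ℝ) * w ((φ b : B) : G) ≤ ((Lb b).card : ℝ) := by
    intro b
    by_cases h : ((φ b : B) : G) = 1
    · rw [w, if_pos h, mul_zero]
      exact Nat.cast_nonneg _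
    · rw [w, if_neg h, mul_one_div, div_le_iff₀ (by exact_mod_cast Nat.card_pos)]
      have h1 := good_count hnil B hB hc (φ b) h
      have h2 : Nat.card {l : B →* ℂˣ // l (φ b) ≠ 1 ∧
          ∀ g : G, ∃ v : B, (v : G) = g * (φ b) * g⁻¹ ∧ l v = l (φ b)} = (Lb b).card := by
        rw [Nat.card_eq_fintype_card, Fintype.card_subtype]
      rw [h2] at h1
      exact_mod_cast h1
  choose χ hχ hχ0 using fun l : B →* ℂˣ => exists_over B l
  -- the map to zeros
  let P : Finset (Σ _ : B, (B →* ℂˣ)) := Finset.univ.sigma Lb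
  let Zs : Finset ((G → ℂ) × ConjClasses G) :=
    ((irrF G) ×ˢ (Finset.univ : Finset (ConjClasses G))).filter
        (fun e => ∀ g : G, ConjClasses.mk g = e.2 → e.1 g = 0)
  have hZs : Zs.card = zeros G := by
    rw [zeros, ← Set.ncard_coe_finset]
    congr 1
    ext e
    simp [Zs, mem_irrF]
  have hmaps : ∀ x ∈ P, ((χ x.2, ConjClasses.mk (x.1 : G)) : (G → ℂ) × ConjClasses G) ∈ Zs := by
    rintro ⟨b, l⟩ hx
    rw [Finset.mem_sigma] at hx
    obtain ⟨-, hl⟩ := hx
    rw [Finset.mem_filter] at hl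
    obtain ⟨-, hl1, hl2⟩ := hl
    rw [Finset.mem_filter, Finset.mem_product]
    refine ⟨⟨hχ l, Finset.mem_univ _⟩, ?_⟩
    have h1 : χ l b = 0 := vanish_over B l (mem_irrF.mp (hχ l)) (hχ0 l) s (φ b) b (hφ b) hl2 hl1
    exact (zset_eq (mem_irrF.mp (hχ l))).mpr h1
  have hfib : ∀ e ∈ Zs, (P.filter (fun x => ((χ x.2, ConjClasses.mk (x.1 : G)) :
      (G → ℂ) × ConjClasses G) = e)).card ≤ B.index ^ 2 := by
    rintro ⟨ψ, K⟩ he
    rw [Finset.mem_filter, Finset.mem_product] at he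
    have h1 : (P.filter (fun x => ((χ x.2, ConjClasses.mk (x.1 : G)) :
      (G → ℂ) × ConjClasses G) = (ψ, K))).card ≤
        ((Finset.univ.filter (fun b : B => ConjClasses.mk (b : G) = K)) ×ˢ
          (Finset.univ.filter (fun l : B →* ℂˣ =>
            pr (ind B (fun h => ((l h : ℂˣ) : ℂ))) ψ ≠ 0))).card := by
      refine Finset.card_le_card_of_injOn (fun x => (x.1, x.2)) ?_ ?_
      · rintro ⟨b, l⟩ hx
        rw [Finset.mem_coe, Finset.mem_filter] at hx
        rw [Finset.mem_coe, Finset.mem_product, Finset.mem_filter, Finset.mem_filter]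
        obtain ⟨-, hx2⟩ := hx
        have h2 := (Prod.mk.inj hx2)
        refine ⟨⟨Finset.mem_univ _, h2.2⟩, Finset.mem_univ _, ?_⟩
        rw [← h2.1]
        exact hχ0 l
      · rintro ⟨b, l⟩ - ⟨b', l'⟩ - h
        have h2 := (Prod.mk.inj h)
        obtain ⟨h3, h4⟩ := h2
        simp only at h3 h4
        subst h3
        subst h4
        rfl
    refine h1.trans ?_
    rw [Finset.card_product, pow_two]
    exact Nat.mul_le_mul (cls_inter B hc K) (under_le B hc (mem_irrF.mp he.1.1))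
  have hPZ : P.card ≤ B.index ^ 2 * zeros G := by
    rw [← hZs]
    exact Finset.card_le_mul_card_image_of_maps_to hmaps _ hfib
  have hPc : (P.card : ℝ) = ∑ b : B, ((Lb b).card : ℝ) := by
    rw [Finset.card_sigma]
    push_cast
    rfl
  -- the weights
  have hsumw : ∑ b : B, w ((φ b : B) : G) = (Nat.card φ.ker : ℝ) *
      ∑ u ∈ Finset.univ.filter (fun u : G => u ∈ C), w u := by
    have h1 : ∀ u ∈ Finset.univ.filter (fun u : G => u ∈ C),
        ((Finset.univ.filter (fun b : B => ((φ b : B) : G) = u)).card : ℝ) = Nat.card φ.ker := by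
      intro u hu
      rw [Finset.mem_filter] at hu
      obtain ⟨_, ⟨b0, rfl⟩, rfl⟩ := hu.2
      rw [Nat.card_eq_fintype_card, Fintype.card_subtype]
      congr 1
      refine Finset.card_bij' (fun b _ => b * b0⁻¹) (fun b _ => b * b0) ?_ ?_ ?_ ?_
      · intro b hb
        rw [Finset.mem_filter] at hb ⊢
        refine ⟨Finset.mem_univ _, ?_⟩
        have h2 : φ b = φ b0 := Subtype.ext hb.2
        rw [MonoidHom.mem_ker, map_mul, map_inv, h2, mul_inv_cancel]
      · intro b hb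
        rw [Finset.mem_filter] at hb ⊢
        refine ⟨Finset.mem_univ _, ?_⟩
        rw [map_mul, MonoidHom.mem_ker.mp hb.2, one_mul]
        rfl
      · intro b _
        simp
      · intro b _
        simp
    rw [Finset.mul_sum, ← Finset.sum_fiberwise_of_maps_to
      (s := (Finset.univ : Finset B)) (t := Finset.univ.filter (fun u : G => u ∈ C))
      (g := fun b : B => ((φ b : B) : G))
      (fun b _ => Finset.mem_filter.mpr ⟨Finset.mem_univ _, ⟨φ b, ⟨b, rfl⟩, rfl⟩⟩)]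
    refine Finset.sum_congr rfl fun u hu => ?_
    rw [← h1 u hu, Finset.sum_congr rfl (g := fun _ => w u) (fun b hb => by
      rw [(Finset.mem_filter.mp hb).2]), Finset.sum_const, nsmul_eq_mul]
  have hW := W_bound hp hG r C hCn hr
  have hfinal : (Nat.card B : ℝ) * ((Nat.card φ.ker : ℝ) * ((r : ℝ) / 2)) ≤
      (B.index : ℝ) ^ 2 * zeros G := by
    calc (Nat.card B : ℝ) * ((Nat.card φ.ker : ℝ) * ((r : ℝ) / 2))
        ≤ (Nat.card B : ℝ) * ((Nat.card φ.ker : ℝ) *
          ∑ u ∈ Finset.univ.filter (fun u : G => u ∈ C), w u) := by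
          gcongr
      _ = ∑ b : B, (Nat.card B : ℝ) * w ((φ b : B) : G) := by
          rw [← hsumw, Finset.mul_sum]
      _ ≤ ∑ b : B, ((Lb b).card : ℝ) := Finset.sum_le_sum fun b _ => hLb b
      _ = (P.card : ℝ) := hPc.symm
      _ ≤ (B.index : ℝ) ^ 2 * zeros G := by exact_mod_cast hPZ
  have h9 : ((Nat.card B * Nat.card φ.ker * r : ℕ) : ℝ) ≤ ((2 * B.index ^ 2 * zeros G : ℕ) : ℝ) := by
    push_cast
    linarith
  exact_mod_cast h9

/-- a nonabelian `p`-group with an abelian normal subgroup of bounded index and few zeros is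
bounded -/
theorem bounded_of_abelian (a J : ℕ) : ∃ F : ℕ, ∀ (G : Type) [Group G] [Finite G] (p : ℕ),
    p.Prime → IsPGroup p G → (¬ ∀ x y : G, x * y = y * x) →
    ∀ A : Subgroup G, A.Normal → (∀ x ∈ A, ∀ y ∈ A, x * y = y * x) → A.index ≤ J →
    zeros G ≤ a * Nat.card (ConjClasses G) → Nat.card G ≤ F := by
  refine ⟨J * ((2 * a * J ^ 3) * J ^ (2 * a * J ^ 3)), ?_⟩
  intro G _ _ p hp hG hna A hA hAc hAJ hz
  obtain ⟨B, s, hB, hBc, hBA, hpB, hs, hsb⟩ := exists_max_abelian hp hG hna hA hAc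
  obtain ⟨r, k, hr, hk, hcard, hcount⟩ := abelian_count hp hG B s hB hBc hs hsb
  have hJ : B.index ≤ J := hBA.trans hAJ
  have hpJ : p ≤ J := hpB.trans hJ
  have hG1 : Nat.card B * B.index = Nat.card G := B.card_mul_index
  have hcl : Nat.card (ConjClasses G) ≤ Nat.card G :=
    Nat.card_le_card_of_surjective ConjClasses.mk ConjClasses.mk_surjective
  have h1 : Nat.card B * (k * r) ≤ Nat.card B * (2 * a * J ^ 3) := by
    calc Nat.card B * (k * r) = Nat.card B * k * r := by ring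
      _ ≤ 2 * B.index ^ 2 * zeros G := hcount
      _ ≤ 2 * J ^ 2 * (a * (Nat.card B * J)) := by
          refine Nat.mul_le_mul (Nat.mul_le_mul le_rfl (Nat.pow_le_pow_left hJ 2))
            (hz.trans (Nat.mul_le_mul le_rfl (hcl.trans ?_)))
          rw [← hG1]
          exact Nat.mul_le_mul le_rfl hJ
      _ = Nat.card B * (2 * a * J ^ 3) := by ring
  have h2 : k * r ≤ 2 * a * J ^ 3 := Nat.le_of_mul_le_mul_left h1 Nat.card_pos
  have h3 : k ≤ 2 * a * J ^ 3 := (Nat.le_mul_of_pos_right k hr).trans h2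
  have h4 : r ≤ 2 * a * J ^ 3 := (Nat.le_mul_of_pos_left r hk).trans h2
  have hJ0 : 0 < J := lt_of_lt_of_le hp.pos hpJ
  calc Nat.card G = B.index * (k * p ^ r) := by rw [← hG1, hcard, mul_comm]
    _ ≤ J * ((2 * a * J ^ 3) * J ^ (2 * a * J ^ 3)) := by
        refine Nat.mul_le_mul hJ (Nat.mul_le_mul h3 ?_)
        exact (Nat.pow_le_pow_left hpJ r).trans (Nat.pow_le_pow_right hJ0 h4)

end Pool.Agent.R677.AZ
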