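import Pool.Agent.R677.AZ.Miss

set_option autoImplicit false
set_option linter.unusedSectionVars false
set_option linter.unusedVariables false
set_option linter.style.haveILetI false

open scoped Classical Pointwise commutatorElement
open Pool.Agent.H302R2 Pool.Agent.H302R3 Pool.Agent.H541R3.ART Pool.Agent.W446.AS Pool.Agent.R389

noncomputable section

namespace Pool.Agent.R677.AZ

variable {G : Type} [Group G] [Finite G]

lemma sup_comm_le {D N : Subgroup G} (hD : D.Normal) (hN : N.Normal) :
    ⁅D ⊔ N, (⊤ : Subgroup G)⁆ ≤ D ⊔ ⁅N, (⊤ : Subgroup G)⁆ := by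
  haveI := hD
  haveI := hN
  rw [Subgroup.commutator_le]
  intro x hx g _
  have h1 : x ∈ (D : Set G) * (N : Set G) := by
    rw [← Subgroup.normal_mul D N]
    exact hx
  obtain ⟨d, hd, c, hc, rfl⟩ := h1
  have h2 : ⁅d * c, g⁆ = d * ⁅c, g⁆ * d⁻¹ * (d * (g * d⁻¹ * g⁻¹)) := by
    simp only [commutatorElement_def]
    group
  rw [h2]
  have h3 : ⁅c, g⁆ ∈ ⁅N, (⊤ : Subgroup G)⁆ :=
    Subgroup.commutator_mem_commutator hc (Subgroup.mem_top g)
  have hn : (⁅N, (⊤ : Subgroup G)⁆).Normal := inferInstance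
  refine mul_mem (Subgroup.mem_sup_right (hn.conj_mem _ h3 d)) (Subgroup.mem_sup_left ?_)
  exact mul_mem hd (hD.conj_mem _ (inv_mem hd) g)

lemma nilp_lemma (hnil : Group.IsNilpotent G) {D N : Subgroup G} (hD : D.Normal) (hN : N.Normal)
    (h : N ≤ D ⊔ ⁅N, (⊤ : Subgroup G)⁆) : N ≤ D := by
  have h1 : ∀ i : ℕ, N ≤ D ⊔ (⊤ : Subgroup G).lowerCentralSeries i := by
    intro i
    induction i with
    | zero =>
      rw [Subgroup.lowerCentralSeries_zero, sup_top_eq]
      exact le_top
    | succ i ih =>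
      have hch : ((⊤ : Subgroup G).lowerCentralSeries i).Normal := inferInstance
      refine h.trans (sup_le le_sup_left ?_)
      refine (Subgroup.commutator_mono ih le_rfl).trans ((sup_comm_le hD hch).trans ?_)
      rw [Subgroup.lowerCentralSeries_succ]
  obtain ⟨n, hn⟩ := Subgroup.nilpotent_iff_lowerCentralSeries.mp hnil
  have h2 := h1 n
  rwa [hn, sup_bot_eq] at h2

lemma exists_step {p : ℕ} (hp : p.Prime) (hG : IsPGroup p G) {N : Subgroup G} (hN : N.Normal)
    (hne : N ≠ ⊥) : ∃ D : Subgroup G, D.Normal ∧ D ≤ N ∧ Nat.card N = p * Nat.card D := by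
  haveI : Fact p.Prime := ⟨hp⟩
  have hnil : Group.IsNilpotent G := hG.isNilpotent
  obtain ⟨D, ⟨hD, hDN⟩, hmax⟩ := Set.exists_max_image {D : Subgroup G | D.Normal ∧ D < N}
    (fun D => Nat.card D) (Set.toFinite _) ⟨⊥, inferInstance, bot_lt_iff_ne_bot.mpr hne⟩
  haveI := hN
  haveI := hD
  refine ⟨D, hD, hDN.le, ?_⟩
  have hE : ⁅N, (⊤ : Subgroup G)⁆ ≤ D := by
    have h1 : D ⊔ ⁅N, (⊤ : Subgroup G)⁆ ≤ N :=
      sup_le hDN.le (Subgroup.commutator_le_left N ⊤)
    rcases eq_or_lt_of_le h1 with h | h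
    · exact absurd (nilp_lemma hnil hD hN h.ge) (not_le_of_gt hDN)
    · have h2 := hmax (D ⊔ ⁅N, (⊤ : Subgroup G)⁆) ⟨inferInstance, h⟩
      have h3 : D = D ⊔ ⁅N, (⊤ : Subgroup G)⁆ := by
        refine SetLike.coe_injective (Set.eq_of_subset_of_ncard_le ?_ ?_ (Set.toFinite _))
        · exact le_sup_left (a := D)
        · exact h2
      rw [h3]
      exact le_sup_right
  obtain ⟨n, hn⟩ := (hG.to_subgroup D).exists_card_eq
  obtain ⟨m, hm⟩ := (hG.to_subgroup N).exists_card_eq
  have hlt : Nat.card D < Nat.card N := by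
    have h1 : (D : Set G) ⊂ (N : Set G) := hDN
    exact Set.ncard_lt_ncard h1 (Set.toFinite _)
  rw [hn, hm] at hlt
  have hnm : n < m := (Nat.pow_lt_pow_iff_right hp.one_lt).mp hlt
  have hdvd : p ^ (n + 1) ∣ Nat.card N := by
    rw [hm]
    exact pow_dvd_pow p hnm
  have hH : Nat.card (D.subgroupOf N) = p ^ n := by
    rw [← hn]
    exact Nat.card_congr (Subgroup.subgroupOfEquivOfLe hDN.le).toEquiv
  obtain ⟨K, hK, hHK⟩ := Sylow.exists_subgroup_card_pow_succ hdvd hH
  have hKc : Nat.card (K.map N.subtype) = p ^ (n + 1) := by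
    rw [← hK]
    exact (Nat.card_congr (K.equivMapOfInjective N.subtype N.subtype_injective).toEquiv).symm
  have hKN : K.map N.subtype ≤ N := by
    rintro _ ⟨x, -, rfl⟩
    exact x.2
  have hDK : D ≤ K.map N.subtype := fun x hx => ⟨⟨x, hDN.le hx⟩, hHK hx, rfl⟩
  have hKn : (K.map N.subtype).Normal := by
    refine ⟨fun x hx g => ?_⟩
    have h1 : ⁅g, x⁆ ∈ D := by
      apply hE
      rw [Subgroup.commutator_comm]
      exact Subgroup.commutator_mem_commutator (Subgroup.mem_top g) (hKN hx)
    have h2 : g * x * g⁻¹ = ⁅g, x⁆ * x := by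
      rw [commutatorElement_def]
      group
    rw [h2]
    exact mul_mem (hDK h1) hx
  have hKe : K.map N.subtype = N := by
    rcases eq_or_lt_of_le hKN with h | h
    · exact h
    · have h2 := hmax _ ⟨hKn, h⟩
      rw [hKc, hn] at h2
      exact absurd ((Nat.pow_le_pow_iff_right hp.one_lt).mp h2) (by omega)
  rw [hKe] at hKc
  rw [hKc, hn, pow_succ, mul_comm]

/-- weight -/
def w (u : G) : ℝ := if u = 1 then 0 else 1 / (Nat.card (Subgroup.normalClosure ({u} : Set G)) : ℝ)

lemma w_nonneg (u : G) : 0 ≤ w u := by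
  rw [w]
  split_ifs
  · exact le_rfl
  · positivity

lemma W_bound [Fintype G] {p : ℕ} (hp : p.Prime) (hG : IsPGroup p G) : ∀ (r : ℕ) (N : Subgroup G),
    N.Normal → Nat.card N = p ^ r →
    (r : ℝ) / 2 ≤ ∑ u ∈ Finset.univ.filter (fun u : G => u ∈ N), w u := by
  intro r
  induction r with
  | zero =>
    intro N hN _
    rw [Nat.cast_zero, zero_div]
    exact Finset.sum_nonneg fun u _ => w_nonneg u
  | succ r ih =>
    intro N hN hc
    have hne : N ≠ ⊥ := by
      rintro rfl
      rw [Subgroup.card_bot] at hc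
      have h1 := Nat.one_lt_pow (Nat.succ_ne_zero r) hp.one_lt
      rw [← hc] at h1
      exact lt_irrefl _ h1
    obtain ⟨D, hD, hDN, hcard⟩ := exists_step hp hG hN hne
    have hDc : Nat.card D = p ^ r := by
      rw [hc, pow_succ, mul_comm] at hcard
      exact (Nat.eq_of_mul_eq_mul_left hp.pos hcard).symm
    have h1 := ih D hD hDc
    have hsplit : Finset.univ.filter (fun u : G => u ∈ N) =
        Finset.univ.filter (fun u : G => u ∈ D) ∪
          Finset.univ.filter (fun u : G => u ∈ N ∧ u ∉ D) := by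
      ext u
      simp only [Finset.mem_filter, Finset.mem_univ, true_and, Finset.mem_union]
      constructor
      · intro h
        by_cases h2 : u ∈ D
        · exact Or.inl h2
        · exact Or.inr ⟨h, h2⟩
      · rintro (h | h)
        · exact hDN h
        · exact h.1
    have hdis : Disjoint (Finset.univ.filter (fun u : G => u ∈ D))
        (Finset.univ.filter (fun u : G => u ∈ N ∧ u ∉ D)) := by
      rw [Finset.disjoint_left]
      intro u hu hu'
      exact (Finset.mem_filter.mp hu').2.2 (Finset.mem_filter.mp hu).2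
    rw [hsplit, Finset.sum_union hdis]
    have hNc : ((Finset.univ.filter (fun u : G => u ∈ N)).card) = Nat.card N := by
      rw [Nat.card_eq_fintype_card, Fintype.card_subtype]
    have hDc' : ((Finset.univ.filter (fun u : G => u ∈ D)).card) = Nat.card D := by
      rw [Nat.card_eq_fintype_card, Fintype.card_subtype]
    have hcd : (Finset.univ.filter (fun u : G => u ∈ N ∧ u ∉ D)).card = Nat.card N - Nat.card D := by
      have h2 := Finset.card_union_of_disjoint hdis
      rw [← hsplit, hNc, hDc'] at h2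
      omega
    have hNpos : (0 : ℝ) < Nat.card N := by exact_mod_cast Nat.card_pos
    have h2 : (1 : ℝ) / 2 ≤ ∑ u ∈ Finset.univ.filter (fun u : G => u ∈ N ∧ u ∉ D), w u := by
      have h3 : ∀ u ∈ Finset.univ.filter (fun u : G => u ∈ N ∧ u ∉ D),
          1 / (Nat.card N : ℝ) ≤ w u := by
        intro u hu
        rw [Finset.mem_filter] at hu
        have hu1 : u ≠ 1 := by
          rintro rfl
          exact hu.2.2 (one_mem D)
        rw [w, if_neg hu1]
        apply one_div_le_one_div_of_le
        · exact_mod_cast Nat.card_pos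
        · have h4 : Subgroup.normalClosure ({u} : Set G) ≤ N :=
            Subgroup.normalClosure_le_normal (by
              rw [Set.singleton_subset_iff]
              exact hu.2.1)
          exact_mod_cast Subgroup.card_le_of_le h4
      have h4 := Finset.card_nsmul_le_sum _ _ _ h3
      rw [hcd, nsmul_eq_mul, Nat.cast_sub (by rw [hcard]; nlinarith [hp.one_lt, Nat.card_pos (α := D)]),
        hcard] at h4
      refine le_trans ?_ h4
      have h5 : (0 : ℝ) < Nat.card D := by exact_mod_cast Nat.card_pos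
      have h6 : (2 : ℝ) ≤ p := by exact_mod_cast hp.two_le
      push_cast
      rw [mul_one_div, le_div_iff₀ (by positivity)]
      nlinarith
    push_cast
    linarith

end Pool.Agent.R677.AZ
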