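import Pool.Agent.R677.AZ.Main
import Pool.Agent.R389.Dec

set_option autoImplicit false
set_option linter.unusedSectionVars false
set_option linter.unusedVariables false
set_option linter.style.haveILetI false

open scoped Classical Pointwise commutatorElement
open Pool.Agent.H302R2 Pool.Agent.H302R3 Pool.Agent.H541R3.ART Pool.Agent.W446.AS Pool.Agent.R389

noncomputable section

namespace Pool.Agent.R677.AZ

variable {G : Type} [Group G] [Finite G]

/-- the set of zeros modulo `G'` of a nonlinear character is everything but at most `N`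
elements -/
lemma small_support {χ : G → ℂ} (hχ : χ ∈ nl G) : ∃ X : Finset (Abelianization G),
    X.card ≤ (nl G).card ∧ ∀ x, x ∉ X → χ (ro x) = 0 := by
  have : Fintype (Abelianization G) := Fintype.ofFinite _
  have : Fintype (G →* ℂˣ) := Fintype.ofFinite _
  obtain ⟨h1, h2⟩ := mem_nl.mp hχ
  let S : Finset (G →* ℂˣ) := Finset.univ.filter (fun μ => ∀ g, ((μ g : ℂˣ) : ℂ) * χ g = χ g)
  let K : Subgroup (Abelianization G) := ⨅ μ : S, (Abelianization.lift μ.1).ker
  have hc : ∀ a b : Abelianization G, a * b = b * a := fun a b => mul_comm a b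
  -- orbit counting
  have hq : nq G ≤ S.card * (nl G).card := by
    rw [← card_lin, Nat.card_eq_fintype_card, ← Finset.card_univ]
    refine Finset.card_le_mul_card_image_of_maps_to
      (f := fun μ : G →* ℂˣ => fun g => ((μ g : ℂˣ) : ℂ) * χ g) (t := nl G) ?_ _ ?_
    · intro μ _
      rw [mem_nl]
      refine ⟨?_, ?_⟩
      · have h3 := irr_twist h1 μ
        have h4 : (fun g => ((μ g : ℂˣ) : ℂ) * χ g) = fun g => χ g * ((μ g : ℂˣ) : ℂ) :=
          funext fun g => mul_comm _ _
        rw [h4]
        exact h3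
      · simp only [map_one, Units.val_one, one_mul]
        exact h2
    · intro f hf
      rcases Finset.eq_empty_or_nonempty (Finset.univ.filter
        (fun μ : G →* ℂˣ => (fun g => ((μ g : ℂˣ) : ℂ) * χ g) = f)) with he | ⟨μ0, hμ0⟩
      · rw [he, Finset.card_empty]
        exact Nat.zero_le _
      rw [Finset.mem_filter] at hμ0
      refine Finset.card_le_card_of_injOn (fun μ => μ0⁻¹ * μ) ?_ ?_
      · intro μ hμ
        rw [Finset.mem_coe, Finset.mem_filter] at hμ
        rw [Finset.mem_coe, Finset.mem_filter]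
        refine ⟨Finset.mem_univ _, fun g => ?_⟩
        have h3 : ((μ g : ℂˣ) : ℂ) * χ g = ((μ0 g : ℂˣ) : ℂ) * χ g :=
          (congrFun hμ.2 g).trans (congrFun hμ0.2 g).symm
        rw [MonoidHom.mul_apply, MonoidHom.inv_apply, Units.val_mul, mul_assoc, h3, ← mul_assoc,
          ← Units.val_mul, inv_mul_cancel, Units.val_one, one_mul]
      · intro a _ b _ hab
        exact mul_left_cancel hab
  have hSK : S.card * Nat.card K ≤ nq G := by
    have h3 := card_triv hc K
    have h4 : Nat.card (Abelianization G) = nq G := rfl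
    rw [h4] at h3
    rw [← h3]
    refine Nat.mul_le_mul_right _ ?_
    have hfin : Finite {l : Abelianization G →* ℂˣ // ∀ m ∈ K, l m = 1} := by
      have : Finite (Abelianization G →* ℂˣ) :=
        Finite.of_equiv _ (Abelianization.lift (G := G) (A := ℂˣ))
      exact Subtype.finite
    have h5 : S.card = Nat.card S := by
      rw [Nat.card_eq_fintype_card, Fintype.card_coe]
    rw [h5]
    refine Nat.card_le_card_of_injective (fun μ : S =>
      (⟨Abelianization.lift μ.1, ?_⟩ : {l : Abelianization G →* ℂˣ // ∀ m ∈ K, l m = 1})) ?_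
    · intro m hm
      have h6 := (Subgroup.mem_iInf.mp hm) μ
      exact h6
    · intro a b hab
      have h6 := congrArg Subtype.val hab
      simp only at h6
      exact Subtype.ext (Abelianization.lift.injective h6)
  have hS : 0 < S.card := by
    refine Finset.card_pos.mpr ⟨1, ?_⟩
    rw [Finset.mem_filter]
    refine ⟨Finset.mem_univ _, fun g => ?_⟩
    rw [MonoidHom.one_apply, Units.val_one, one_mul]
  have hK : Nat.card K ≤ (nl G).card := Nat.le_of_mul_le_mul_left (hSK.trans hq) hS
  refine ⟨Finset.univ.filter (fun x => x ∈ K), ?_, ?_⟩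
  · rw [← Fintype.card_subtype, ← Nat.card_eq_fintype_card]
    exact hK
  · intro x hx
    rw [Finset.mem_filter] at hx
    have h3 : x ∉ K := fun h => hx ⟨Finset.mem_univ _, h⟩
    rw [Subgroup.mem_iInf] at h3
    push Not at h3
    obtain ⟨μ, hμ⟩ := h3
    have h4 := (Finset.mem_filter.mp μ.2).2 (ro x)
    have h5 : (μ.1 (ro x) : ℂˣ) ≠ 1 := by
      intro h6
      apply hμ
      rw [MonoidHom.mem_ker, ← of_ro x, Abelianization.lift_apply_of]
      exact h6
    have h7 : (((μ.1 (ro x) : ℂˣ) : ℂ) - 1) * χ (ro x) = 0 := by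
      rw [sub_mul, h4, one_mul, sub_self]
    rcases mul_eq_zero.mp h7 with h8 | h8
    · exact absurd (Units.ext (sub_eq_zero.mp h8)) h5
    · exact h8

/-- every nonlinear character vanishes at the same `q - N²` classes -/
lemma many_zeros {χ : G → ℂ} (hχ : χ ∈ nl G) : nq G ≤ (nl G).card ^ 2 + zc χ := by
  obtain ⟨X, hX, h⟩ := small_support hχ
  refine (zc_ge χ (mem_nl.mp hχ).1 X h).trans (Nat.add_le_add_right (hX.trans ?_) _)
  exact Nat.le_self_pow two_ne_zero _

lemma p_le_nq {p : ℕ} (hp : p.Prime) (hG : IsPGroup p G) [Nontrivial G] : p ≤ nq G := by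
  haveI : Fact p.Prime := ⟨hp⟩
  obtain ⟨M, hM, -⟩ := (eq_top_or_exists_le_coatom (⊥ : Subgroup G)).resolve_left bot_ne_top
  have h1 := comm_le_coatom hG.isNilpotent hM
  have h2 : commutator G ≠ ⊤ := by
    intro h
    rw [h, top_le_iff] at h1
    exact hM.1 h1
  obtain ⟨k, hk⟩ := hG.index (commutator G)
  have h3 : nq G = (commutator G).index := rfl
  rw [h3, hk]
  rcases Nat.eq_zero_or_pos k with h | h
  · rw [h, pow_zero, Subgroup.index_eq_one] at hk
    exact absurd hk h2
  · exact Nat.le_self_pow h.ne' p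

end Pool.Agent.R677.AZ
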