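import Pool.Agent.R677.AZ.Fin

set_option autoImplicit false
set_option linter.unusedSectionVars false
set_option linter.unusedVariables false
set_option linter.style.haveILetI false

open scoped Classical Pointwise commutatorElement
open Pool.Agent.H302R2 Pool.Agent.H302R3 Pool.Agent.H541R3.ART Pool.Agent.W446.AS Pool.Agent.R389

noncomputable section

namespace Pool.Agent.R677.AZ

variable {G : Type} [Group G] [Finite G]

lemma nl_nonempty {p : ℕ} (hp : p.Prime) (hG : IsPGroup p G)
    (hna : ¬ ∀ x y : G, x * y = y * x) : 1 ≤ (nl G).card := by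
  by_contra hcon
  have h0 : nl G = ∅ := Finset.card_eq_zero.mp (by omega)
  apply hna
  intro x y
  let f : G → ℂ := fun g => if g = 1 then 1 else 0
  have hf : ∀ g z : G, f (z * g * z⁻¹) = f g := by
    intro g z
    simp only [f, conj_eq_one_iff]
  have h1 : f (x * y * x⁻¹ * y⁻¹) = f 1 := by
    rw [class_expand hf, class_expand hf 1]
    refine Finset.sum_congr rfl fun χ hχ => ?_
    have h2 : χ 1 = 1 := by
      by_contra h3
      have h4 : χ ∈ nl G := mem_nl.mpr ⟨mem_irrF.mp hχ, h3⟩
      rw [h0] at h4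
      exact absurd h4 (Finset.notMem_empty _)
    obtain ⟨μ, rfl⟩ := exists_lin hp hG (mem_irrF.mp hχ) h2
    congr 1
    simp only [lin, map_mul, map_inv, map_one]
    congr 1
    rw [mul_comm (μ x) (μ y), mul_inv_cancel_right, mul_inv_cancel]
  by_cases h2 : x * y * x⁻¹ * y⁻¹ = 1
  · rw [mul_inv_eq_one, mul_inv_eq_iff_eq_mul] at h2
    exact h2
  · simp [f, h2] at h1

theorem bound (a : ℝ) : ∃ F : ℕ, ∀ (G : Type) [Group G] [Finite G] (p : ℕ), p.Prime →
    IsPGroup p G → (¬ ∀ x y : G, x * y = y * x) → anz G = a → Nat.card G ≤ F := by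
  obtain ⟨m, hm⟩ := exists_nat_ge (4 * a)
  set D := m ^ m with hD
  obtain ⟨F1, hF1⟩ := bounded_of_abelian m (D.factorial ^ (D.factorial ^ m))
  set F2 : ℕ := ∑ n ∈ Finset.range (m + 1), ⌈2 * (n : ℝ) ^ 2 / (n - a)⌉₊ with hF2
  refine ⟨F2 ^ F2 + m ^ (4 * F1), ?_⟩
  intro G _ _ p hp hG hna ha
  haveI : Fact p.Prime := ⟨hp⟩
  have hnil : Group.IsNilpotent G := hG.isNilpotent
  haveI hnt : Nontrivial G := by
    by_contra h
    rw [not_nontrivial_iff_subsingleton] at h
    exact hna fun x y => Subsingleton.elim _ _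
  set k := Nat.card (ConjClasses G) with hk
  set N := (nl G).card with hN
  have hkpos : 0 < k := Nat.card_pos
  have hsplit : k = nq G + N := by rw [hk, ← card_irrF, card_split hp hG]
  have hN1 : 1 ≤ N := nl_nonempty hp hG hna
  have hz : (zeros G : ℝ) = a * k := by
    rw [← ha, anz, div_mul_cancel₀]
    exact_mod_cast hkpos.ne'
  have ha0 : 0 ≤ a := by
    rw [← ha, anz]
    positivity
  have hpq : p ≤ nq G := p_le_nq hp hG
  have hzs := zeros_nl (G := G) hp hG
  have e1 : N * nq G ≤ 2 * zeros G := by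
    rw [hzs, Finset.mul_sum, hN, ← smul_eq_mul, ← Finset.sum_const]
    exact Finset.sum_le_sum fun χ hχ => nl_zeros hp hG hχ
  have e2 : zeros G + N ≤ N * k := by
    rw [hzs, hN, ← smul_eq_mul (nl G).card k, ← Finset.sum_const, Finset.card_eq_sum_ones,
      ← Finset.sum_add_distrib]
    exact Finset.sum_le_sum fun χ hχ => zc_lt (mem_nl.mp hχ).1
  have e3 : N * nq G ≤ N * N + zeros G := by
    rw [hzs, hN, ← smul_eq_mul, ← Finset.sum_const, ← smul_eq_mul (nl G).card (nl G).card,
      ← Finset.sum_const, ← Finset.sum_add_distrib]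
    refine Finset.sum_le_sum fun χ hχ => ?_
    obtain ⟨X, hX, h⟩ := small_support hχ
    exact (zc_ge χ (mem_nl.mp hχ).1 X h).trans (Nat.add_le_add_right hX _)
  have e1' : (N : ℝ) * nq G ≤ 2 * (a * k) := by
    rw [← hz]
    exact_mod_cast e1
  have e2' : a * k + N ≤ (N : ℝ) * k := by
    rw [← hz]
    exact_mod_cast e2
  have e3' : (N : ℝ) * nq G ≤ (N : ℝ) * N + a * k := by
    rw [← hz]
    exact_mod_cast e3
  have hsp' : (k : ℝ) = nq G + N := by exact_mod_cast hsplit
  have hN1' : (1 : ℝ) ≤ N := by exact_mod_cast hN1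
  have hkp' : (0 : ℝ) < k := by exact_mod_cast hkpos
  have hcardk : Nat.card G ≤ p ^ k := card_le_classes hp hG
  rcases lt_or_ge N (nq G) with hcase | hcase
  · -- few nonlinear characters
    have hc' : (N : ℝ) < nq G := by exact_mod_cast hcase
    have hNm : N ≤ m := by
      have h1 : (N : ℝ) ≤ m := by
        have h2 : (N : ℝ) * nq G ≤ 4 * a * nq G := by
          have h3 : (k : ℝ) ≤ 2 * nq G := by linarith
          have h4 := mul_le_mul_of_nonneg_left h3 ha0
          linarith
        have h3 : (0 : ℝ) < nq G := by linarith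
        have h4 := le_of_mul_le_mul_right h2 h3
        linarith
      exact_mod_cast h1
    have haN : 0 < (N : ℝ) - a := by
      have h1 : 0 < ((N : ℝ) - a) * k := by
        have : ((N : ℝ) - a) * k = N * k - a * k := by ring
        rw [this]
        linarith
      by_contra h2
      push Not at h2
      nlinarith
    have hkN : (k : ℝ) ≤ 2 * (N : ℝ) ^ 2 / (N - a) := by
      rw [le_div_iff₀ haN]
      have h1 : (nq G : ℝ) = k - N := by linarith
      rw [h1] at e3'
      nlinarith
    have hkF : k ≤ F2 := by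
      have h1 : k ≤ ⌈2 * (N : ℝ) ^ 2 / (N - a)⌉₊ := by
        have h2 := hkN.trans (Nat.le_ceil _)
        exact_mod_cast h2
      refine h1.trans ?_
      exact Finset.single_le_sum (f := fun n : ℕ => ⌈2 * (n : ℝ) ^ 2 / (n - a)⌉₊)
        (fun n _ => Nat.zero_le _) (Finset.mem_range.mpr (by omega))
    have hpF : p ≤ F2 := hpq.trans ((by omega : nq G ≤ k).trans hkF)
    have hF2pos : 0 < F2 := lt_of_lt_of_le hp.pos hpF
    calc Nat.card G ≤ p ^ k := hcardk
      _ ≤ F2 ^ k := Nat.pow_le_pow_left hpF k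
      _ ≤ F2 ^ F2 := Nat.pow_le_pow_right hF2pos hkF
      _ ≤ _ := Nat.le_add_right _ _
  · -- many nonlinear characters
    have hc' : (nq G : ℝ) ≤ N := by exact_mod_cast hcase
    have hk2N : (k : ℝ) ≤ 2 * N := by linarith
    have hqm : nq G ≤ m := by
      have h1 : (nq G : ℝ) ≤ m := by
        have h2 : (nq G : ℝ) * N ≤ 4 * a * N := by
          have h4 := mul_le_mul_of_nonneg_left hk2N ha0
          linarith
        have h4 := le_of_mul_le_mul_right h2 (by linarith)
        linarith
      exact_mod_cast h1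
    have hm1 : 1 ≤ m := by
      have := hp.pos
      omega
    set S := (nl G).filter (fun χ => zc χ ≤ m) with hS
    have hSN : N ≤ 2 * S.card := by
      by_contra hcon
      push Not at hcon
      have h1 : (nl G).card = S.card + ((nl G).filter (fun χ => ¬ zc χ ≤ m)).card :=
        (Finset.card_filter_add_card_filter_not _).symm
      have h2 : ((nl G).filter (fun χ => ¬ zc χ ≤ m)).card * (m + 1) ≤ zeros G := by
        rw [hzs, ← smul_eq_mul, ← Finset.sum_const]
        refine (Finset.sum_le_sum (g := fun χ => zc χ) fun χ hχ => ?_).trans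
          (Finset.sum_le_sum_of_subset (Finset.filter_subset _ _))
        have h3 := (Finset.mem_filter.mp hχ).2
        omega
      set T := ((nl G).filter (fun χ => ¬ zc χ ≤ m)).card with hT
      have h3 : N < 2 * T := by omega
      have h3' : (N : ℝ) < 2 * T := by exact_mod_cast h3
      have h2' : (T : ℝ) * (m + 1) ≤ a * k := by
        rw [← hz]
        exact_mod_cast h2
      have h4 : a * k ≤ 2 * a * N := by
        have := mul_le_mul_of_nonneg_left hk2N ha0
        linarith
      have h5 : (N : ℝ) * (m + 1) < 2 * T * (m + 1) :=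
        mul_lt_mul_of_pos_right h3' (by positivity)
      have h6 : (N : ℝ) * (4 * a) ≤ N * (m + 1) :=
        mul_le_mul_of_nonneg_left (by linarith) (by linarith)
      linarith
    obtain ⟨A, hAn, hAJ, hA⟩ := exists_core hnil D m hqm
    haveI := hAn
    have hfac : ∀ χ ∈ S, ∃ θ ∈ Irr (G ⧸ ⁅A, A⁆), ∀ g : G, χ g =
        θ (QuotientGroup.mk' ⁅A, A⁆ g) := by
      intro χ hχ
      rw [hS, Finset.mem_filter] at hχ
      have hI := (mem_nl.mp hχ.1).1
      obtain ⟨K, ψ, h⟩ := pgroup_mono hp hG hI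
      have h1 : ind K (fun h => ((ψ h : ℂˣ) : ℂ)) ∈ Irr G := h ▸ hI
      have h2 := index_le_zc hp hG K ψ h1
      rw [← h] at h2
      have h3 : K.index ≤ D := by
        refine h2.trans ?_
        rw [hD]
        exact (Nat.pow_le_pow_left (hpq.trans hqm) _).trans (Nat.pow_le_pow_right hm1 hχ.2)
      obtain ⟨θ, hθ, hθ1⟩ := factor A K ψ h1 (hA K h3)
      exact ⟨θ, hθ, fun g => by rw [h]; exact hθ1 g⟩
    choose! Θ hΘ hΘ1 using hfac
    have hπ := QuotientGroup.mk'_surjective ⁅A, A⁆
    set k' := Nat.card (ConjClasses (G ⧸ ⁅A, A⁆)) with hk'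
    have hSk : S.card ≤ k' := by
      rw [hk', ← card_irrF]
      refine Finset.card_le_card_of_injOn Θ (fun χ hχ => mem_irrF.mpr (hΘ χ hχ)) ?_
      intro χ hχ χ' hχ' he
      funext g
      rw [hΘ1 χ hχ, hΘ1 χ' hχ', he]
    have hkk : (k : ℝ) ≤ 4 * k' := by
      have h1 : (N : ℝ) ≤ 2 * S.card := by exact_mod_cast hSN
      have h2 : (S.card : ℝ) ≤ k' := by exact_mod_cast hSk
      linarith
    have hzq : zeros (G ⧸ ⁅A, A⁆) ≤ m * k' := by
      have h1 : (zeros (G ⧸ ⁅A, A⁆) : ℝ) ≤ m * k' := by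
        have h2 : (zeros (G ⧸ ⁅A, A⁆) : ℝ) ≤ zeros G := by exact_mod_cast zeros_quot ⁅A, A⁆
        have h3 := mul_le_mul_of_nonneg_left hkk ha0
        have h4 : 4 * a * k' ≤ m * (k' : ℝ) := mul_le_mul_of_nonneg_right hm (by positivity)
        rw [hz] at h2
        linarith
      exact_mod_cast h1
    have hnaq : ¬ ∀ x y : G ⧸ ⁅A, A⁆, x * y = y * x := by
      intro hcomm
      have hSne : S.Nonempty := by
        rw [← Finset.card_pos]
        omega
      obtain ⟨χ, hχ⟩ := hSne
      have h1 := deg_comm hcomm (hΘ χ hχ)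
      have h2 := hΘ1 χ hχ 1
      rw [map_one, h1] at h2
      exact (mem_nl.mp (Finset.mem_filter.mp hχ).1).2 h2
    have hAq : (A.map (QuotientGroup.mk' ⁅A, A⁆)).Normal := hAn.map _ hπ
    have hcardq := hF1 (G ⧸ ⁅A, A⁆) p hp (hG.of_surjective _ hπ) hnaq
      (A.map (QuotientGroup.mk' ⁅A, A⁆)) hAq (by
        rintro _ ⟨x, hx, rfl⟩ _ ⟨y, hy, rfl⟩
        rw [← map_mul, ← map_mul]
        refine QuotientGroup.eq.mpr ?_
        have h1 : (x * y)⁻¹ * (y * x) = ⁅y⁻¹, x⁻¹⁆ := by
          rw [commutatorElement_def]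
          group
        rw [h1]
        exact Subgroup.commutator_mem_commutator (inv_mem hy) (inv_mem hx))
      ((Nat.le_of_dvd (Nat.pos_of_ne_zero A.index_ne_zero_of_finite)
        (A.index_map_dvd hπ)).trans hAJ) hzq
    have hk'F : k' ≤ F1 := (Nat.card_le_card_of_surjective ConjClasses.mk
      ConjClasses.mk_surjective).trans hcardq
    have hkF : k ≤ 4 * F1 := by
      have h1 : k ≤ 4 * k' := by exact_mod_cast hkk
      omega
    calc Nat.card G ≤ p ^ k := hcardk
      _ ≤ m ^ k := Nat.pow_le_pow_left (hpq.trans hqm) k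
      _ ≤ m ^ (4 * F1) := Nat.pow_le_pow_right hm1 hkF
      _ ≤ _ := Nat.le_add_left _ _

/-- **Main theorem.** -/
theorem main : ∃ f : ℝ → ℝ, ∀ (G : Type) [Group G] [Finite G] (p : ℕ), p.Prime →
    IsPGroup p G → (¬ ∀ x y : G, x * y = y * x) → (Nat.card G : ℝ) ≤ f (anz G) := by
  choose F hF using bound
  exact ⟨fun a => F a, fun G _ _ p hp hG hna => Nat.cast_le.mpr (hF _ G p hp hG hna rfl)⟩

end Pool.Agent.R677.AZ
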