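import Pool.Agent.R677.AZ.Bdd

set_option autoImplicit false
set_option linter.unusedSectionVars false
set_option linter.unusedVariables false
set_option linter.style.haveILetI false

open scoped Classical Pointwise commutatorElement
open Pool.Agent.H302R2 Pool.Agent.H302R3 Pool.Agent.H541R3.ART Pool.Agent.W446.AS Pool.Agent.R389

noncomputable section

namespace Pool.Agent.R677.AZ

variable {G : Type} [Group G] [Finite G]

/-- representatives of the abelianization -/
def ro (x : Abelianization G) : G := Quotient.out x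

lemma of_ro (x : Abelianization G) : Abelianization.of (ro x) = x := Quotient.out_eq x

lemma mk_ro_inj : Function.Injective (fun x : Abelianization G => ConjClasses.mk (ro x)) := by
  intro x y h
  simp only at h
  rw [ConjClasses.mk_eq_mk_iff_isConj, isConj_iff] at h
  obtain ⟨c, hc⟩ := h
  have h1 := congrArg (Abelianization.of (G := G)) hc
  rw [map_mul, map_mul, map_inv, of_ro, of_ro, mul_comm, inv_mul_cancel_left] at h1
  exact h1

/-- counting zeros outside a subgroup of the abelianization -/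
lemma zc_ge (χ : G → ℂ) (hχ : χ ∈ Irr G) (X : Finset (Abelianization G))
    (h : ∀ x, x ∉ X → χ (ro x) = 0) : nq G ≤ X.card + zc χ := by
  have : Fintype (Abelianization G) := Fintype.ofFinite _
  have h1 : (Xᶜ).card ≤ zc χ := by
    rw [zc, ← Finset.card_image_of_injective _ mk_ro_inj, ← Set.ncard_coe_finset]
    refine Set.ncard_le_ncard ?_ (Set.toFinite _)
    intro K hK
    rw [Finset.mem_coe, Finset.mem_image] at hK
    obtain ⟨x, hx, rfl⟩ := hK
    exact (zset_eq hχ).mpr (h x (Finset.mem_compl.mp hx))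
  rw [Finset.card_compl] at h1
  rw [nq, Nat.card_eq_fintype_card]
  omega

lemma half_subgroup {Q : Type} [Group Q] [Finite Q] {M : Subgroup Q} (h : M ≠ ⊤) :
    2 * Nat.card M ≤ Nat.card Q := by
  have h1 := M.card_mul_index
  have h2 : M.index ≠ 1 := by rwa [Ne, Subgroup.index_eq_one]
  have h3 : M.index ≠ 0 := M.index_ne_zero_of_finite
  rw [← h1, mul_comm]
  exact Nat.mul_le_mul le_rfl (by omega)

lemma nl_zeros {p : ℕ} (hp : p.Prime) (hG : IsPGroup p G) {χ : G → ℂ} (hχ : χ ∈ nl G) :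
    nq G ≤ 2 * zc χ := by
  haveI : Fact p.Prime := ⟨hp⟩
  have : Fintype (Abelianization G) := Fintype.ofFinite _
  obtain ⟨h1, h2⟩ := mem_nl.mp hχ
  obtain ⟨K, ψ, h⟩ := pgroup_mono hp hG h1
  have hK : K ≠ ⊤ := by
    rintro rfl
    apply h2
    rw [h, ind_lin_one, Subgroup.index_top, Nat.cast_one]
  obtain ⟨M, hM, hKM⟩ := (eq_top_or_exists_le_coatom K).resolve_left hK
  have hcM := comm_le_coatom hG.isNilpotent hM
  have hMn : M.Normal := by
    refine ⟨fun x hx g => ?_⟩
    have h3 : g * x * g⁻¹ = ⁅g, x⁆ * x := by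
      rw [commutatorElement_def]
      group
    rw [h3]
    exact mul_mem (hcM (Subgroup.commutator_mem_commutator (Subgroup.mem_top g)
      (Subgroup.mem_top x))) hx
  have hMm : ∀ x : Abelianization G, ro x ∈ M → x ∈ M.map Abelianization.of := fun x hx =>
    ⟨ro x, hx, of_ro x⟩
  have hne : M.map (Abelianization.of (G := G)) ≠ ⊤ := by
    intro h3
    apply hM.1
    rw [eq_top_iff]
    intro g _
    have h4 : Abelianization.of g ∈ M.map (Abelianization.of (G := G)) := by
      rw [h3]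
      exact Subgroup.mem_top _
    obtain ⟨y, hy, hyg⟩ := h4
    have h5 : y⁻¹ * g ∈ commutator G := QuotientGroup.eq.mp hyg
    have h6 := mul_mem hy (hcM h5)
    rwa [mul_inv_cancel_left] at h6
  have h3 := half_subgroup hne
  have h4 := zc_ge χ h1 (Finset.univ.filter (fun x => x ∈ M.map Abelianization.of)) (by
    intro x hx
    rw [h]
    apply ind_lin_zero
    intro y hy
    apply hx
    rw [Finset.mem_filter]
    refine ⟨Finset.mem_univ _, hMm x ?_⟩
    have h5 := hMn.conj_mem _ (hKM hy) y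
    rwa [show y * (y⁻¹ * ro x * y) * y⁻¹ = ro x by group] at h5)
  have h5 : (Finset.univ.filter (fun x => x ∈ M.map (Abelianization.of (G := G)))).card =
      Nat.card (M.map (Abelianization.of (G := G))) := by
    rw [Nat.card_eq_fintype_card, Fintype.card_subtype]
  rw [h5] at h4
  have h6 : nq G = Nat.card (Abelianization G) := rfl
  omega

lemma index_le_zc {p : ℕ} (hp : p.Prime) (hG : IsPGroup p G) (K : Subgroup G) (ψ : K →* ℂˣ)
    (hχ : ind K (fun h => ((ψ h : ℂˣ) : ℂ)) ∈ Irr G) :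
    K.index ≤ p ^ zc (ind K (fun h => ((ψ h : ℂˣ) : ℂ))) := by
  refine (index_le_miss hp _ G rfl hG K).trans (Nat.pow_le_pow_right hp.pos ?_)
  rw [zc]
  refine Set.ncard_le_ncard ?_ (Set.toFinite _)
  intro L hL
  obtain ⟨g, rfl⟩ := ConjClasses.exists_rep L
  exact (zset_eq hχ).mpr (ind_lin_zero K _ (miss_mk.mp hL))

/-- characters induced from overgroups of `A` factor through `G / A'` -/
lemma factor (A : Subgroup G) [hA : A.Normal] (K : Subgroup G) (ψ : K →* ℂˣ)
    (hχ : ind K (fun h => ((ψ h : ℂˣ) : ℂ)) ∈ Irr G) (hAK : ∀ a ∈ A, ∀ x : G, x⁻¹ * a * x ∈ K) :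
    ∃ θ ∈ Irr (G ⧸ ⁅A, A⁆), ∀ g : G, ind K (fun h => ((ψ h : ℂˣ) : ℂ)) g =
      θ (QuotientGroup.mk' ⁅A, A⁆ g) := by
  have : Fintype G := Fintype.ofFinite G
  have : Fintype (⁅A, A⁆ : Subgroup G) := Fintype.ofFinite _
  have hker : ∀ x : G, ∀ n ∈ ⁅A, A⁆, ∃ k : K, (k : G) = x⁻¹ * n * x ∧ ψ k = 1 := by
    intro x
    let θ : A →* ℂˣ :=
      { toFun := fun a => ψ ⟨x⁻¹ * a * x, hAK a a.2 x⟩
        map_one' := by
          have h1 : (⟨x⁻¹ * ((1 : A) : G) * x, hAK _ (1 : A).2 x⟩ : K) = 1 := by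
            apply Subtype.ext
            simp
          rw [h1, map_one]
        map_mul' := by
          intro a b
          rw [← map_mul]
          congr 1
          apply Subtype.ext
          simp only [Subgroup.coe_mul]
          group }
    have h1 : ⁅A, A⁆ ≤ θ.ker.map A.subtype := by
      rw [Subgroup.commutator_le]
      intro a ha b hb
      refine ⟨⁅(⟨a, ha⟩ : A), (⟨b, hb⟩ : A)⁆, ?_, rfl⟩
      show θ _ = 1
      rw [map_commutatorElement, commutatorElement_eq_one_iff_mul_comm, mul_comm]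
    intro n hn
    obtain ⟨a, ha, rfl⟩ := h1 hn
    exact ⟨⟨x⁻¹ * a * x, hAK a a.2 x⟩, rfl, ha⟩
  have hinv : ∀ g : G, ∀ n ∈ ⁅A, A⁆, ind K (fun h => ((ψ h : ℂˣ) : ℂ)) (g * n) =
      ind K (fun h => ((ψ h : ℂˣ) : ℂ)) g := by
    intro g n hn
    rw [ind_eq, ind_eq]
    congr 1
    refine Finset.sum_congr rfl fun x _ => ?_
    obtain ⟨k, hk, hk1⟩ := hker x n hn
    have h2 : x⁻¹ * (g * n) * x = (x⁻¹ * g * x) * k := by
      rw [hk]
      group
    by_cases h3 : x⁻¹ * g * x ∈ K
    · have h4 : x⁻¹ * (g * n) * x ∈ K := by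
        rw [h2]
        exact mul_mem h3 k.2
      rw [ext_mem K _ h3, ext_mem K _ h4]
      have h5 : (⟨x⁻¹ * (g * n) * x, h4⟩ : K) = ⟨x⁻¹ * g * x, h3⟩ * k := Subtype.ext h2
      rw [h5, map_mul, hk1, mul_one]
    · have h4 : x⁻¹ * (g * n) * x ∉ K := by
        rw [h2]
        intro h5
        exact h3 ((Subgroup.mul_mem_cancel_right K k.2).mp h5)
      rw [ext_not K _ h3, ext_not K _ h4]
  obtain ⟨n, ρ, hρ, he⟩ := exists_rep hχ
  have h1 : ∀ m ∈ ⁅A, A⁆, ρ m = 1 := by
    rcases Irred.normal_dich hρ ⁅A, A⁆ with h | h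
    · exact h
    · exfalso
      have h2 := h 1
      have h3 : ∀ m : (⁅A, A⁆ : Subgroup G), ρ.character ((1 : G) * m) = ρ.character 1 := by
        intro m
        rw [← he]
        exact hinv 1 m m.2
      rw [Finset.sum_congr rfl (fun m _ => h3 m), Finset.sum_const, Finset.card_univ,
        nsmul_eq_mul] at h2
      rcases mul_eq_zero.mp h2 with h4 | h4
      · exact Fintype.card_pos.ne' (by exact_mod_cast h4)
      · obtain ⟨d, hd, h5⟩ := irr_deg_pos hχ
        rw [he, h4] at h5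
        exact hd.ne' (by exact_mod_cast h5.symm)
  obtain ⟨θ, hθ, hθ1⟩ := descend_irr (QuotientGroup.mk'_surjective ⁅A, A⁆) hρ (by
    intro g hg
    rw [QuotientGroup.ker_mk'] at hg
    exact h1 g hg)
  refine ⟨θ, hθ, fun g => ?_⟩
  rw [he]
  exact hθ1 g

/-- zeros of a quotient are zeros of the group -/
lemma zeros_quot (N : Subgroup G) [N.Normal] : zeros (G ⧸ N) ≤ zeros G := by
  have hπ := QuotientGroup.mk'_surjective N
  rw [zeros_eq, zeros_eq]
  have hinj : Function.Injective (fun (θ : (G ⧸ N) → ℂ) (g : G) => θ (QuotientGroup.mk' N g)) := by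
    intro a b h
    funext y
    obtain ⟨g, rfl⟩ := hπ y
    exact congrFun h g
  have h1 : ∀ θ ∈ irrF (G ⧸ N), zc θ ≤ zc (fun g => θ (QuotientGroup.mk' N g)) := by
    intro θ hθ
    have hsub : zset θ ⊆ (ConjClasses.map (QuotientGroup.mk' N)) ''
        (zset (fun g => θ (QuotientGroup.mk' N g))) := by
      intro K hK
      obtain ⟨y, rfl⟩ := ConjClasses.exists_rep K
      obtain ⟨g, rfl⟩ := hπ y
      refine ⟨ConjClasses.mk g, ?_, rfl⟩
      rw [zset_eq (infl_irr hπ (mem_irrF.mp hθ))]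
      exact (zset_eq (mem_irrF.mp hθ)).mp hK
    exact (Set.ncard_le_ncard hsub (Set.toFinite _)).trans (Set.ncard_image_le (Set.toFinite _))
  refine (Finset.sum_le_sum h1).trans ?_
  rw [← Finset.sum_image (g := fun (θ : (G ⧸ N) → ℂ) (g : G) => θ (QuotientGroup.mk' N g))
    (f := fun χ => zc χ) (fun a _ b _ h => hinj h)]
  refine Finset.sum_le_sum_of_subset ?_
  intro χ hχ
  rw [Finset.mem_image] at hχ
  obtain ⟨θ, hθ, rfl⟩ := hχ
  exact mem_irrF.mpr (infl_irr hπ (mem_irrF.mp hθ))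

/-- irreducible characters of commutative groups are linear -/
lemma deg_comm (hc : ∀ a b : G, a * b = b * a) {χ : G → ℂ} (hχ : χ ∈ Irr G) : χ 1 = 1 := by
  obtain ⟨n, ρ, hρ, rfl⟩ := exists_rep hχ
  obtain ⟨μ, v, hv, h⟩ := exists_weight hc ρ hρ.1
  have h1 : Submodule.span ℂ {v} = ⊤ := by
    rcases hρ.2 (Submodule.span ℂ {v}) (by
      intro g x hx
      rw [Submodule.mem_span_singleton] at hx ⊢
      obtain ⟨c, rfl⟩ := hx
      exact ⟨c * ((μ g : ℂˣ) : ℂ), by rw [map_smul, h g, smul_smul]⟩) with h2 | h2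
    · exfalso
      rw [Submodule.span_singleton_eq_bot] at h2
      exact hv h2
    · exact h2
  have h2 : Module.finrank ℂ (Fin n → ℂ) = 1 := by
    rw [← finrank_top ℂ (Fin n → ℂ), ← h1, finrank_span_singleton hv]
  rw [Representation.char_one, h2, Nat.cast_one]

end Pool.Agent.R677.AZ
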