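import Pool.Agent.R677.AZ.Basic

set_option autoImplicit false
set_option linter.unusedSectionVars false
set_option linter.unusedVariables false
set_option linter.style.haveILetI false

open scoped Classical Pointwise commutatorElement
open Pool.Agent.H302R2 Pool.Agent.H302R3 Pool.Agent.H541R3.ART Pool.Agent.W446.AS Pool.Agent.R389

noncomputable section

namespace Pool.Agent.R677.AZ

/-- the classes missing a subgroup -/
def miss {G : Type} [Group G] (H : Subgroup G) : Set (ConjClasses G) :=
  {K | ∀ g, ConjClasses.mk g = K → g ∉ H}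

lemma miss_mk {G : Type} [Group G] {H : Subgroup G} {g : G} :
    ConjClasses.mk g ∈ miss H ↔ ∀ x : G, x⁻¹ * g * x ∉ H := by
  constructor
  · intro h x
    apply h
    rw [ConjClasses.mk_eq_mk_iff_isConj, isConj_iff]
    exact ⟨x, by group⟩
  · intro h g' hg'
    rw [ConjClasses.mk_eq_mk_iff_isConj, isConj_iff] at hg'
    obtain ⟨c, hc⟩ := hg'
    have := h c
    rwa [← hc, show c⁻¹ * (c * g' * c⁻¹) * c = g' by group] at this

/-- in a `p`-group a subgroup of index `p ^ e` misses at least `e` classes -/
theorem index_le_miss {p : ℕ} (hp : p.Prime) : ∀ (n : ℕ) (G : Type) [Group G] [Finite G],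
    Nat.card G = n → IsPGroup p G → ∀ H : Subgroup G, H.index ≤ p ^ (miss H).ncard := by
  intro n
  induction n using Nat.strong_induction_on with
  | _ n ih =>
    intro G _ _ hn hG H
    haveI : Fact p.Prime := ⟨hp⟩
    by_cases hT : Nontrivial G
    swap
    · rw [not_nontrivial_iff_subsingleton] at hT
      have h1 : H.index = 1 := by
        rw [Subgroup.index_eq_one]
        exact Subsingleton.elim _ _
      rw [h1]
      exact Nat.one_le_pow _ _ hp.pos
    haveI := hG.center_nontrivial
    have hpd : p ∣ Nat.card (Subgroup.center G) := by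
      obtain ⟨k, hk⟩ := (hG.to_subgroup (Subgroup.center G)).exists_card_eq
      rw [hk]
      rcases Nat.eq_zero_or_pos k with h | h
      · exfalso
        rw [h, pow_zero] at hk
        have := Finite.one_lt_card (α := Subgroup.center G)
        omega
      · exact dvd_pow_self p h.ne'
    obtain ⟨z, hz⟩ := exists_prime_orderOf_dvd_card' p hpd
    let Z : Subgroup G := Subgroup.zpowers (z : G)
    have hzc : ∀ g : G, g * z = z * g := fun g => Subgroup.mem_center_iff.mp z.2 g
    have hZc : Z ≤ Subgroup.center G := by
      rw [Subgroup.zpowers_le]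
      exact z.2
    haveI hZn : Z.Normal := by
      refine ⟨fun x hx g => ?_⟩
      rw [Subgroup.mem_center_iff.mp (hZc hx) g, mul_inv_cancel_right]
      exact hx
    have hZcard : Nat.card Z = p := by
      rw [Nat.card_zpowers, Subgroup.orderOf_coe, hz]
    have hz1 : (z : G) ≠ 1 := by
      intro h
      have h2 : orderOf z = 1 := by
        rw [orderOf_eq_one_iff]
        exact Subtype.ext h
      rw [hz] at h2
      exact hp.one_lt.ne' h2
    let π : G →* G ⧸ Z := QuotientGroup.mk' Z
    have hπ : Function.Surjective π := QuotientGroup.mk'_surjective Z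
    have hcard : Nat.card (G ⧸ Z) < n := by
      have h2 := Subgroup.card_eq_card_quotient_mul_card_subgroup Z
      rw [hn, hZcard] at h2
      rw [h2]
      have h3 : 0 < Nat.card (G ⧸ Z) := Nat.card_pos
      have h4 := hp.one_lt
      nlinarith
    have hI := ih _ hcard (G ⧸ Z) rfl (hG.of_surjective π hπ) (H.map π)
    have hidx : (H.map π).index = (H ⊔ Z).index := by
      rw [Subgroup.index_map, QuotientGroup.ker_mk', MonoidHom.range_eq_top.mpr hπ,
        Subgroup.index_top, mul_one]
    -- missing classes lift
    have hlift : (miss (H.map π)).ncard ≤ (miss (H ⊔ Z)).ncard := by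
      have hsub : miss (H.map π) ⊆ (ConjClasses.map π) '' (miss (H ⊔ Z)) := by
        intro K hK
        obtain ⟨y, rfl⟩ := ConjClasses.exists_rep K
        obtain ⟨g, rfl⟩ := hπ y
        refine ⟨ConjClasses.mk g, ?_, rfl⟩
        intro g' hg' hmem
        have h1 : π g' ∈ H.map π := by
          rw [← Subgroup.mem_comap, Subgroup.comap_map_eq, QuotientGroup.ker_mk']
          exact hmem
        refine hK (π g') ?_ h1
        rw [ConjClasses.mk_eq_mk_iff_isConj] at hg' ⊢
        exact MonoidHom.map_isConj π hg'
      exact (Set.ncard_le_ncard hsub (Set.toFinite _)).trans (Set.ncard_image_le (Set.toFinite _))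
    have hmono : miss (H ⊔ Z) ⊆ miss H := fun K hK g hg h => hK g hg (le_sup_left (a := H) h)
    by_cases hzH : (z : G) ∈ H
    · have h1 : H ⊔ Z = H := by
        rw [sup_eq_left, Subgroup.zpowers_le]
        exact hzH
      rw [hidx, h1] at hI
      rw [h1] at hlift
      exact hI.trans (Nat.pow_le_pow_right hp.pos hlift)
    · have h1 : H.index ≤ p * (H ⊔ Z).index := by
        have h2 : Nat.card (H ⊔ Z : Subgroup G) ≤ Nat.card H * p := by
          have h3 : ((H ⊔ Z : Subgroup G) : Set G) = (H : Set G) * (Z : Set G) :=
            (Subgroup.mul_normal H Z)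
          have h4 := Set.natCard_mul_le (s := (H : Set G)) (t := (Z : Set G))
          rw [← h3] at h4
          have h5 : Nat.card ((Z : Set G) : Set G) = p := hZcard
          rw [h5] at h4
          exact h4
        have h3 := H.card_mul_index
        have h4 := (H ⊔ Z).card_mul_index
        have h5 : Nat.card H * H.index ≤ Nat.card H * (p * (H ⊔ Z).index) := by
          rw [h3, ← h4, ← mul_assoc]
          exact Nat.mul_le_mul_right _ h2
        exact Nat.le_of_mul_le_mul_left h5 Nat.card_pos
      have h2 : (miss (H ⊔ Z)).ncard + 1 ≤ (miss H).ncard := by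
        have h3 : ConjClasses.mk (z : G) ∉ miss (H ⊔ Z) := fun h =>
          h z rfl (le_sup_right (a := H) (Subgroup.mem_zpowers (z : G)))
        rw [← Set.ncard_insert_of_notMem h3 (Set.toFinite _)]
        refine Set.ncard_le_ncard ?_ (Set.toFinite _)
        rw [Set.insert_subset_iff]
        refine ⟨?_, hmono⟩
        rw [miss_mk]
        intro x
        rw [mul_assoc, ← hzc x, inv_mul_cancel_left]
        exact hzH
      calc H.index ≤ p * (H ⊔ Z).index := h1
        _ ≤ p * p ^ (miss (H ⊔ Z)).ncard := by
            rw [← hidx]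
            exact Nat.mul_le_mul_left _ (hI.trans (Nat.pow_le_pow_right hp.pos hlift))
        _ = p ^ ((miss (H ⊔ Z)).ncard + 1) := by rw [pow_succ, mul_comm]
        _ ≤ p ^ (miss H).ncard := Nat.pow_le_pow_right hp.pos h2

/-- a `p`-group is bounded by its number of classes -/
theorem card_le_classes {p : ℕ} (hp : p.Prime) {G : Type} [Group G] [Finite G]
    (hG : IsPGroup p G) : Nat.card G ≤ p ^ Nat.card (ConjClasses G) := by
  have h := index_le_miss hp _ G rfl hG ⊥
  rw [Subgroup.index_bot] at h
  refine h.trans (Nat.pow_le_pow_right hp.pos ?_)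
  rw [← Set.ncard_univ]
  exact Set.ncard_le_ncard (Set.subset_univ _) (Set.toFinite _)

/-- maximal subgroups of a nilpotent group contain the commutator subgroup -/
lemma comm_le_coatom {G : Type} [Group G] [Finite G] (hN : Group.IsNilpotent G) {M : Subgroup G}
    (hM : IsCoatom M) : commutator G ≤ M := by
  haveI hMn : M.Normal := by
    have h1 := Group.normalizerCondition_of_isNilpotent (G := G)
    exact Subgroup.NormalizerCondition.normal_of_coatom M h1 hM
  haveI : IsSimpleGroup (G ⧸ M) := by
    have hnt : Nontrivial (G ⧸ M) := by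
      rw [QuotientGroup.nontrivial_iff]
      exact hM.1
    refine ⟨fun K hK => ?_⟩
    have h2 : M ≤ K.comap (QuotientGroup.mk' M) := by
      intro x hx
      have h3 : (QuotientGroup.mk' M) x = 1 := (QuotientGroup.eq_one_iff x).mpr hx
      rw [Subgroup.mem_comap, h3]
      exact one_mem K
    rcases eq_or_lt_of_le h2 with h | h
    · left
      rw [eq_bot_iff]
      intro y hy
      obtain ⟨x, rfl⟩ := QuotientGroup.mk'_surjective M y
      have h3 : x ∈ K.comap (QuotientGroup.mk' M) := hy
      rw [← h] at h3
      exact (QuotientGroup.eq_one_iff x).mpr h3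
    · right
      have h3 := hM.2 _ h
      rw [eq_top_iff]
      intro y _
      obtain ⟨x, rfl⟩ := QuotientGroup.mk'_surjective M y
      have h4 : x ∈ K.comap (QuotientGroup.mk' M) := by
        rw [h3]
        exact Subgroup.mem_top x
      exact h4
  have hcomm : ∀ a b : G ⧸ M, a * b = b * a := by
    rw [IsSimpleGroup.comm_iff_isSolvable]
    infer_instance
  rw [commutator_def, Subgroup.commutator_le]
  intro a _ b _
  rw [← QuotientGroup.eq_one_iff]
  show (QuotientGroup.mk' M) ⁅a, b⁆ = 1
  rw [map_commutatorElement, commutatorElement_eq_one_iff_mul_comm]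
  exact hcomm _ _

/-- a nilpotent group is generated by representatives of its abelianization -/
lemma gen_out {G : Type} [Group G] [Finite G] (hN : Group.IsNilpotent G) :
    Subgroup.closure (Set.range (fun x : Abelianization G => (Quotient.out x : G))) = ⊤ := by
  rcases eq_top_or_exists_le_coatom
    (Subgroup.closure (Set.range (fun x : Abelianization G => (Quotient.out x : G)))) with h | h
  · exact h
  · exfalso
    obtain ⟨M, hM, hle⟩ := h
    have h1 := comm_le_coatom hN hM
    apply hM.1
    rw [eq_top_iff]
    intro g _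
    have h2 : (Quotient.out (Abelianization.of g) : G) ∈ M := hle (Subgroup.subset_closure ⟨_, rfl⟩)
    have h3 : Abelianization.of (Quotient.out (Abelianization.of g) : G) = Abelianization.of g :=
      Quotient.out_eq (Abelianization.of g)
    have h4 : (Quotient.out (Abelianization.of g) : G)⁻¹ * g ∈ M := by
      apply h1
      exact QuotientGroup.eq.mp h3
    have h5 := mul_mem h2 h4
    rwa [mul_inv_cancel_left] at h5

/-- the number of homomorphisms from a nilpotent group to a finite group is bounded -/
lemma card_hom_le {G : Type} [Group G] [Finite G] (hN : Group.IsNilpotent G) (P : Type) [Group P]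
    [Finite P] : Finite (G →* P) ∧ Nat.card (G →* P) ≤ Nat.card P ^ nq G := by
  have : Fintype (Abelianization G) := Fintype.ofFinite _
  have hinj : Function.Injective (fun (φ : G →* P) (x : Abelianization G) =>
      φ (Quotient.out x : G)) := by
    intro a b h
    refine MonoidHom.eq_of_eqOn_dense (gen_out hN) ?_
    rintro _ ⟨x, rfl⟩
    exact congrFun h x
  refine ⟨Finite.of_injective _ hinj, ?_⟩
  have h1 := Nat.card_le_card_of_injective _ hinj
  rwa [Nat.card_fun] at h1

/-- one normal subgroup of bounded index inside all subgroups of index at most `D` -/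
theorem exists_core {G : Type} [Group G] [Finite G] (hN : Group.IsNilpotent G) (D m : ℕ)
    (hm : nq G ≤ m) : ∃ A : Subgroup G, A.Normal ∧
      A.index ≤ (D.factorial) ^ ((D.factorial) ^ m) ∧
      ∀ H : Subgroup G, H.index ≤ D → ∀ a ∈ A, ∀ x : G, x⁻¹ * a * x ∈ H := by
  obtain ⟨hfin, hcard⟩ := card_hom_le hN (Equiv.Perm (Fin D))
  have : Fintype (G →* Equiv.Perm (Fin D)) := Fintype.ofFinite _
  have hP : Nat.card (Equiv.Perm (Fin D)) = D.factorial := by
    rw [Nat.card_eq_fintype_card, Fintype.card_perm, Fintype.card_fin]
  refine ⟨⨅ φ : G →* Equiv.Perm (Fin D), φ.ker, ?_, ?_, ?_⟩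
  · exact Subgroup.normal_iInf_normal fun φ => inferInstance
  · refine (Subgroup.index_iInf_le _).trans ?_
    calc ∏ φ : G →* Equiv.Perm (Fin D), φ.ker.index
        ≤ ∏ _φ : G →* Equiv.Perm (Fin D), D.factorial := by
          refine Finset.prod_le_prod' fun φ _ => ?_
          rw [Subgroup.index_ker, ← hP]
          exact Nat.card_le_card_of_injective _ Subtype.coe_injective
      _ = D.factorial ^ Nat.card (G →* Equiv.Perm (Fin D)) := by
          rw [Finset.prod_const, Finset.card_univ, Nat.card_eq_fintype_card]
      _ ≤ _ := by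
          refine Nat.pow_le_pow_right (Nat.factorial_pos D) (hcard.trans ?_)
          rw [hP]
          exact Nat.pow_le_pow_right (Nat.factorial_pos D) hm
  · intro H hH a ha x
    -- embed `G / H` in `Fin D`
    have : Fintype (G ⧸ H) := Fintype.ofFinite _
    have hc : Fintype.card (G ⧸ H) ≤ Fintype.card (Fin D) := by
      rw [Fintype.card_fin, ← Nat.card_eq_fintype_card]
      exact hH
    obtain ⟨e⟩ := Function.Embedding.nonempty_of_card_le hc
    let φ : G →* Equiv.Perm (Fin D) :=
      (Equiv.Perm.viaEmbeddingHom e).comp (MulAction.toPermHom G (G ⧸ H))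
    have h1 : a ∈ φ.ker := (Subgroup.mem_iInf.mp ha) φ
    rw [MonoidHom.mem_ker] at h1
    have h2 : MulAction.toPermHom G (G ⧸ H) a = 1 := by
      apply Equiv.Perm.viaEmbeddingHom_injective e
      rw [map_one]
      exact h1
    have h3 := congrArg (fun σ : Equiv.Perm (G ⧸ H) => σ (QuotientGroup.mk x)) h2
    have h4 : (QuotientGroup.mk (a * x) : G ⧸ H) = QuotientGroup.mk x := h3
    rw [eq_comm, QuotientGroup.eq] at h4
    rwa [mul_assoc]

end Pool.Agent.R677.AZ
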